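import Pool.Agent.Helper14.WK.Defs

/-!
# Newforms of level `p^n`, `n ≥ 0`
-/

set_option autoImplicit false

open UpperHalfPlane CongruenceSubgroup
open scoped MatrixGroups

namespace Pool.Agent.Helper28.LV

open Pool.Agent.Helper14.CV (G0)
open Pool.Agent.Helper14.WK

/-- `f` is a newform of weight `k`, level `p^n` (`p` prime, `n ≥ 0`) and trivial character: it is a
cusp form on `Γ₀(p^n)` with first coefficient `1`, an eigenform of all Hecke operators `T_l`,
`l ≠ p` prime, and of `T_p` (if `n = 0`) or `U_p` (if `n ≥ 1`), and, if `n ≥ 1`, its eigenvalues at the primes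
`l ≠ p` do not come from the lower level `p^(n-1)` (no nonzero cusp form on `Γ₀(p^(n-1))` has the
same eigenvalues at all primes `l ≠ p`). For `n = 0` this says: `f` is a normalised Hecke eigenform
for `SL₂(ℤ)`. -/
structure IsNewformA (p n : ℕ) {k : ℤ} (f : CuspForm (G0 (p ^ n)) k) : Prop where
  normalised : fcK f 1 = 1
  hecke : ∀ l : ℕ, l.Prime → l ≠ p → HeckeEigK f l (fcK f l)
  hecke_one : n = 0 → HeckeEigK f p (fcK f p)
  hecke_p : n ≠ 0 → ∀ m : ℕ, fcK f (p * m) = fcK f p * fcK f m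
  new : n ≠ 0 → ∀ g : CuspForm (G0 (p ^ (n - 1))) k,
    (∀ l : ℕ, l.Prime → l ≠ p → HeckeEigK g l (fcK f l)) → g = 0

theorem IsNewformA.toK {p n : ℕ} {k : ℤ} {f : CuspForm (G0 (p ^ n)) k} (h : IsNewformA p n f)
    (hn : n ≠ 0) : IsNewformK p n f :=
  ⟨h.normalised, h.hecke, h.hecke_p hn, h.new hn⟩

end Pool.Agent.Helper28.LV
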