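import Pool.Agent.Helper28.LV.M_ZL
import Pool.Agent.Helper28.WK.M_Brg

/-!
# The Eichler potentials of a form of level `p^n` (coordinate `z`)
-/

set_option autoImplicit false

open Pool.Agent.Helper14.CV (G0 Homog EqC act)
open Pool.Agent.Helper14.WK Pool.Agent.Helper28.WK
open scoped MatrixGroups

namespace Pool.Agent.Helper28.LV

theorem hBrgN (hA4 : SKA4) (hMod : SKMod) (hP1 : SKP1) (hP2 : SKP2) (hH3 : SKH3) (hP4 : SKP4)
    (p A n : ℕ) (hne : NeZero (p ^ n))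
    (f : CuspForm (G0 (p ^ n)) (2 * A + 2))
    (hf : ∀ l : ℕ, l.Prime → l ≠ p → HeckeEigK f l (fcK f l))
    (hW : ∀ z : ℂ, 0 < z.im → fzK f (-1 / ((p ^ n : ℕ) * z)) =
      (-1) ^ (A + 1) * ((p ^ n : ℕ) : ℂ) ^ (A + 1) * z ^ (2 * A + 2) * fzK f z) :
    ∃ I : ℤ → ℤ → ℕ → ℂ, IsPotK A f I ∧ IDn p A n I := by
  obtain ⟨I, hI, hinf⟩ := hA4 (p ^ n) hne A f
  refine ⟨I, hI, ?_⟩
  constructor
  · exact hP1 _ hne A f I hI
  · exact hinf
  · intro α β γ δ hdet hγ i hi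
    have hM := hMod (p ^ n) hne A f α β γ δ hdet (by push_cast; exact hγ)
    obtain ⟨C, hC⟩ := hP2 (p ^ n) hne A f I α β γ δ 1 hI (by rw [hdet]; norm_num)
      (fun z hz => by rw [hM z hz, one_mul]) i hi
    refine ⟨C, fun x y hxy => ?_⟩
    have h1 := hC x y hxy
    rw [hdet] at h1
    simp only [Int.cast_one, one_mul, mp] at h1
    exact h1
  · have h1 := hP4 (p ^ n) hne A f I hI hW
    have e : ((p ^ n : ℕ) : ℤ) = (p : ℤ) ^ n := by push_cast; rfl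
    rw [← e]
    exact h1
  · refine ⟨fun l => fcK f l, fun l m hl hlp hm i hi x y hxy => ?_⟩
    exact hH3 (p ^ n) hne A f I l (fcK f l) m hI hl.pos (hf l hl hlp) hm i hi x y hxy

/-- Final statement for the coordinate `z`. -/
theorem hFinN (hA4 : SKA4) (hMod : SKMod) (hP1 : SKP1) (hP2 : SKP2) (hH3 : SKH3) (hP4 : SKP4)
    (hA5 : SKA5) (hIN : SKIN) (hTr : StLTr) (hAll : StLAll)
    (p : ℕ) (hp : p.Prime) (A n : ℕ) (hA : 1 ≤ A)
    (hQC : ∀ Φ : ℤ → ℤ → ℕ → ℂ, WSN p A n Φ → EqC (cp Φ A) 0)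
    (hne : NeZero (p ^ n)) (hk : 0 < (2 * A + 2 : ℤ))
    (f : CuspForm (G0 (p ^ n)) (2 * A + 2)) (h1f : fcK f 1 = 1)
    (hf : ∀ l : ℕ, l.Prime → l ≠ p → HeckeEigK f l (fcK f l))
    (hW : ∀ z : ℂ, 0 < z.im → fzK f (-1 / ((p ^ n : ℕ) * z)) =
      (-1) ^ (A + 1) * ((p ^ n : ℕ) : ℂ) ^ (A + 1) * z ^ (2 * A + 2) * fzK f z) :
    LanK hk f (1 / 2) ≠ 0 := by
  intro hL
  obtain ⟨I, hI, hD⟩ := hBrgN hA4 hMod hP1 hP2 hH3 hP4 p A n hne f hf hW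
  have h0 := hA5 (p ^ n) hne A hk f I hI hL
  have hWS := hTr p A n I hp hD h0
  have hc := hAll p A n _ hp hWS (hQC _ hWS)
  have hz := hLTr2 p A n I hD hc
  have h1 := hIN (p ^ n) hne A f I hA hI hz 1 le_rfl
  rw [h1f] at h1
  exact one_ne_zero h1

/-- The transformation under `-1/z` of a form of level one and weight divisible by `4`. -/
theorem hW0 (hMod : SKMod) (p A : ℕ) (hne : NeZero (p ^ 0)) (hodd : Odd A)
    (f : CuspForm (G0 (p ^ 0)) (2 * A + 2)) :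
    ∀ z : ℂ, 0 < z.im → fzK f (-1 / ((p ^ 0 : ℕ) * z)) =
      (-1) ^ (A + 1) * ((p ^ 0 : ℕ) : ℂ) ^ (A + 1) * z ^ (2 * A + 2) * fzK f z := by
  intro z hz
  have h := hMod (p ^ 0) hne A f 0 (-1) 1 0 (by norm_num) (by simp) z hz
  have e : (-1 : ℂ) ^ (A + 1) = 1 := Even.neg_one_pow (by
    obtain ⟨r, hr⟩ := hodd
    exact ⟨r + 1, by omega⟩)
  rw [e]
  push_cast at h
  simp only [zero_mul, zero_add, one_mul, add_zero] at h
  simp only [pow_zero, Nat.cast_one, one_pow, one_mul]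
  exact h

end Pool.Agent.Helper28.LV
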