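import Pool.Agent.Helper28.LV.StN
import Pool.Agent.Helper28.LV.M_BrgN

/-!
# Level `p`, `a` even: assembly
-/

set_option autoImplicit false

open Pool.Agent.Helper14.CV (G0 Homog EqC act StFar)
open Pool.Agent.Helper28.WK
open Pool.Agent.Helper14.WK

namespace Pool.Agent.Helper28.LV

/-- The `p`-adic part. -/
theorem hQP (la : StLLa) (lb : StLLb) (ui : UIp) (pol : StLPol) (ms : MS) (rt : RgT)
    (ru : RgU) (eg : EG) (qfa : StQFa) (qfb : StQFb) (w1 : StLW1) (w2 : StLW2) (w4 : StLW4) (p : ℕ)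
    (hp : Fact p.Prime) (hTA : TAp p) (a : ℕ) (Φ : ℤ → ℤ → ℕ → ℤ_[p])
    (hW : WSN p a 1 Φ) :
    ∃ Ψ : ℤ → ℤ → ℕ → ℚ_[p], L1S p a (fun x y i => (Φ x y i : ℚ_[p])) Ψ := by
  obtain ⟨ψ, hψ1, hψ2, hψ3⟩ := lb la ui p hp hTA 1 (cp Φ a) (hW.hom a (by omega))
    (fun M hM => w1 p hp a 1 Φ hW M (by omega)) hW.fr
    hW.st (fun M hM ls hls => w4 p hp a 1 Φ hW M (by omega) ls hls)
  obtain ⟨hb, hc⟩ := w2 p hp a 1 Φ hW
  obtain ⟨hb', hc'⟩ := pol p hp a 1 (cp Φ a) ψ (hW.hom a (by omega)) hψ1 hψ2 hψ3 hb hc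
  obtain ⟨F, hF⟩ := qfa ms rt ru eg p hp a Φ ψ (by
    intro α β γ δ hd hg
    have h := hW.eqv α β γ δ hd (by simpa using hg) a (by omega)
    rwa [show 2 * a - a = a by omega] at h) hψ1 (fun M hM => by simpa using hψ2 M hM) hψ3
    hb' (fun c h => hc' c (by simpa using h))
  exact qfb rt p hp a Φ F hF

/-- The analytic part: a symbol `Ψ` of level one gives a cusp form of level one. -/
theorem hAN (nr : NR) (ne : NE) (ca5 : CA5) (mf : MF) (nx : NX) (a1 : SKA1)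
    (p : ℕ) (hp : p.Prime) (A : ℕ) (hA : Even A) (hA2 : 2 ≤ A)
    (hne : NeZero (p ^ 1)) (f : CuspForm (G0 (p ^ 1)) (2 * A + 2)) (hf : IsNewformK p 1 f)
    (I Ψ : ℤ → ℤ → ℕ → ℂ) (hI : IsPotK A f I) (hinf : ∀ i : ℕ, i ≤ 2 * A → I 1 0 i = 0)
    (hhom : ∀ i : ℕ, i ≤ 2 * A → Homog (cp I i)) (hL : L1S p A (PhN A I) Ψ) : False := by
  obtain ⟨P, hP, hrel⟩ := nr p A hne f I Ψ hp hA hA2 hI hinf hhom hL
  obtain ⟨b0, b1, bs, hG⟩ := ne p A hne f hp hA hA2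
  set κ : ℂ := ((2 * A).factorial : ℂ) * Complex.I with hκ
  have hκ0 : κ ≠ 0 := mul_ne_zero (by exact_mod_cast (Nat.factorial_ne_zero _)) Complex.I_ne_zero
  have hF := ca5 (2 * A) (bco p A f) (Polynomial.C κ⁻¹ * P) ⟨A, by ring⟩
    ((Polynomial.natDegree_C_mul_le _ _).trans hP) b0 bs (by
      intro x hx
      have h1 := hrel x hx
      rw [hG x, hG (-1 / x)] at h1
      rw [Polynomial.eval_mul, Polynomial.eval_C]
      have e1 : ((-1 / x : ℝ) : ℂ) = -1 / (x : ℂ) := by push_cast; rfl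
      rw [e1] at h1
      have e2 : (-(-1 / (x : ℂ))) = 1 / (x : ℂ) := by ring
      rw [e2] at h1
      have h2 : κ * ((x : ℂ) ^ (2 * A) * (EE (2 * A) (bco p A f) (-1 / (x : ℂ)) +
          EE (2 * A) (bco p A f) (1 / (x : ℂ)))) =
          κ * (EE (2 * A) (bco p A f) x + EE (2 * A) (bco p A f) (-x)) + P.eval (x : ℂ) := by
        rw [← h1]
        ring
      refine mul_left_cancel₀ hκ0 ?_
      rw [h2, mul_add κ (_ + _) (κ⁻¹ * _), ← mul_assoc κ κ⁻¹, mul_inv_cancel₀ hκ0, one_mul])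
  obtain ⟨g, hg⟩ := mf p A (bco p A f) b0 bs hF
  have hHg : ∀ l : ℕ, l.Prime → l ≠ p → HeckeEigK g l (fcK f l) := fun l hl hlp =>
    nx a1 p A (p ^ 1) hne f g hp hg l hl hlp (hf.hecke l hl hlp)
  have hg0 : g = 0 := hf.new g hHg
  have h1 : fcK g 1 = 1 := by rw [hg 1, b1, hf.normalised]
  rw [hg0] at h1
  have h2 : fcK (0 : CuspForm (G0 (p ^ 0)) (2 * A + 2)) 1 = 0 := by
    have h3 := hg 0
    unfold fcK
    have h4 : ((0 : CuspForm (G0 (p ^ 0)) (2 * A + 2)) : UpperHalfPlane → ℂ) = 0 := rfl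
    rw [h4]
    simp [UpperHalfPlane.qExpansion_zero]
  rw [h2] at h1
  exact zero_ne_one h1

end Pool.Agent.Helper28.LV
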