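import Pool.Agent.Helper28.LV.M_GenL
import Pool.Agent.Helper28.LV.M_Ev
import Pool.Agent.Helper7.LV.M_QFa
import Pool.Agent.Helper9.LV.M_DC
import Pool.Agent.Helper33.LV.M_NH
import Pool.Agent.Helper60.LV.M_CA1
import Pool.Agent.Helper97.LV.M_CA2
import Pool.Agent.Helper4.LV.M_CA3
import Pool.Agent.Helper76.LV.M_CA4
import Pool.Agent.Helper92.LV.M_CA5
import Pool.Agent.Helper21.LV.M_NX
import Pool.Agent.Helper98.LV.M_QFb
import Pool.Agent.Helper71.LV.M_NE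
import Pool.Agent.Helper63.LV.M_MF
import Pool.Agent.Helper61.LV.M_FG
import Pool.Agent.Helper55.LV.M_NS
import Pool.Agent.Helper28.LV.M_NR

/-!
# Theorem A for the prime `p` implies nonvanishing at all levels `p^n`, `n ≥ 0`, weights `≥ 4`
-/

set_option autoImplicit false

open Pool.Agent.Helper14.CV (G0 Homog EqC act)
open Pool.Agent.Helper14.WK Pool.Agent.Helper28.WK

namespace Pool.Agent.Helper28.LV

/-- Level `p`, `A` even. -/
theorem gen1e (p : ℕ) (hp : p.Prime) (hTA : TAp p) (A : ℕ) (hA : Even A)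
    (hA1 : 1 ≤ A) (hne : NeZero (p ^ 1)) (hk : 0 < (2 * A + 2 : ℤ))
    (f : CuspForm (G0 (p ^ 1)) (2 * A + 2)) (hf : IsNewformK p 1 f) (hε : RootOneK hk f) :
    LanK hk f (1 / 2) ≠ 0 := by
  have hA2 : 2 ≤ A := by
    obtain ⟨r, hr⟩ := hA
    omega
  intro hL
  obtain ⟨a4, kmod, p1, p2, h3, a8, -, -, -, p4, a5, kin⟩ := ana
  have a1 := Pool.Agent.Helper63.WK.hKA1
  have a1b := Pool.Agent.Helper92.WK.hKA1b a1
  have ke := Pool.Agent.Helper6.WK.hKE a1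
  have b1 := Pool.Agent.Helper82.WK.hKB1
  have b2 := Pool.Agent.Helper81.WK.hKB2 a1 a1b ke b1
  have b3 := Pool.Agent.Helper90.WK.hKB3 a1 b1
  obtain ⟨I, hI, hD⟩ := hBrgN a4 kmod p1 p2 h3 p4 p A 1 hne f hf.hecke (a8 (p ^ 1) hne A hk f hε)
  have h0 := a5 (p ^ 1) hne A hk f I hI hL
  have hWS := Pool.Agent.Helper12.LV.hLTr p A 1 I hp hD h0
  have far := Pool.Agent.Helper38.CV.hFar
  obtain ⟨Ψ, hΨ⟩ := Pool.Agent.Helper9.LV.hDC (Pool.Agent.Helper61.LV.hFG far) far Pool.Agent.Helper54.LV.hLMap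
    Pool.Agent.Helper62.LV.hLDen p ⟨hp⟩ A
    (fun Φ h => hQP Pool.Agent.Helper35.LV.hLLa Pool.Agent.Helper26.LV.hLLb uiT
      Pool.Agent.Helper8.LV.hLPol msT Pool.Agent.Helper34.LV.hRgT Pool.Agent.Helper51.LV.hRgU
      Pool.Agent.Helper47.LV.hEG Pool.Agent.Helper7.LV.hQFa Pool.Agent.Helper98.LV.hQFb Pool.Agent.Helper4.LV.hLW1
      Pool.Agent.Helper61.LV.hLW2 Pool.Agent.Helper60.LV.hLW4 p ⟨hp⟩ hTA A Φ h) (PhN A I) hWS
  have nh := Pool.Agent.Helper33.LV.hNH a1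
  have ns := Pool.Agent.Helper55.LV.hNS b1 b2 b3
  have nr := hNR b1 b3 ns
  have ne := Pool.Agent.Helper71.LV.hNE a1 nh
  have ca5 := Pool.Agent.Helper92.LV.hCA5 Pool.Agent.Helper60.LV.hCA1 Pool.Agent.Helper97.LV.hCA2
    Pool.Agent.Helper4.LV.hCA3 Pool.Agent.Helper76.LV.hCA4
  exact hAN nr ne ca5 Pool.Agent.Helper63.LV.hMF Pool.Agent.Helper21.LV.hNX a1 p hp A hA hA2 hne f hf I Ψ hI hD.inf
    hD.hom hΨ

/-- All levels. -/
theorem genAll (p : ℕ) (hp : p.Prime) (hTA : TAp p) (A n : ℕ) (hA : 1 ≤ A)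
    (hne : NeZero (p ^ n)) (hk : 0 < (2 * A + 2 : ℤ))
    (f : CuspForm (G0 (p ^ n)) (2 * A + 2)) (hf : IsNewformA p n f) (hε : RootOneK hk f) :
    LanK hk f (1 / 2) ≠ 0 := by
  rcases Nat.lt_or_ge n 2 with h | h
  · have h01 : n = 0 ∨ n = 1 := by omega
    rcases h01 with rfl | rfl
    · exact gen0 p hp hTA A hA hne hk f hf.normalised hf.hecke hε
    · rcases Nat.even_or_odd A with h | h
      · exact gen1e p hp hTA A h hA hne hk f (hf.toK one_ne_zero) hε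
      · exact gen1 p hp hTA A h hne hk f (hf.toK one_ne_zero) hε
  · exact gen2 p hp hTA A n hA h hne hk f (hf.toK (by omega)) hε

end Pool.Agent.Helper28.LV
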