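import Pool.Agent.Helper28.WK.StC

/-!
# Project LV: all levels `p^n`, `n ≥ 0` (in particular level one): statements

Continuation of project WK (Pool/Agent/Helper28/WK): the remaining levels `n = 0, 1` (weights
`k ≡ 0` modulo `4`, that is `a` odd, `k = 2a+2`) and `n = 2`. For `n = 0, 1` the coordinate is `z`
itself: the group is `{(α β; γ δ) | p^n ∣ γ}`, the Fricke matrix `(0 -1; p^n 0)`. `u = (p 0; 0 1)`.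
`n(b) = (1 b; 0 1)`, `n'(c) = (1 0; c 1)`, `S = (0 -1; 1 0)`. `D` is a pair of nonzero vectors `(v, w)` and
`H(D) = H(w) - H(v)`, `gD = (gv, gw)`.
-/

set_option autoImplicit false

open Pool.Agent.Helper14.CV Pool.Agent.Helper28.WK

namespace Pool.Agent.Helper28.LV

/-- Symbols of weight `2a+2` and level `p^n` in the coordinate `z` (no trace condition), with central
component anti-invariant under the Fricke involution (`fr`) and invariant under `*` (`st`), and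
killed by all Hecke words applied to the central path (`hk`). Compare `WSymP`. -/
structure WSN {R : Type} [AddCommGroup R] (p a n : ℕ) (Φ : ℤ → ℤ → ℕ → R) : Prop where
  hom : ∀ i : ℕ, i ≤ 2 * a → Homog (cp Φ i)
  eqv : ∀ α β γ δ : ℤ, α * δ - β * γ = 1 → (p : ℤ) ^ n ∣ γ → ∀ i : ℕ, i ≤ 2 * a →
    EqC (act α β γ δ (cp Φ i)) (pr Φ ((Polynomial.C α * Polynomial.X + Polynomial.C β) ^ i *
      (Polynomial.C γ * Polynomial.X + Polynomial.C δ) ^ (2 * a - i)))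
  fr : EqC (act 0 (-1) ((p : ℤ) ^ n) 0 (cp Φ a)) (-(cp Φ a))
  st : EqC (act (-1) 0 0 1 (cp Φ a)) (cp Φ a)
  hk : ∀ M : ℕ, 1 ≤ M → ∀ ls : List ℕ, Ok p ls →
    WTw a ((p : ℤ) ^ M) ls Φ 1 0 a = WTw a ((p : ℤ) ^ M) ls Φ 0 1 a

/-- LMAP. Additive maps; the same as `StMap` for `WSN` (model: Pool/Agent/Helper47/WK/M_Map.lean). -/
def StLMap : Prop := ∀ (p a n : ℕ), p ≠ 0 → ∀ (R S : Type) (_ : AddCommGroup R) (_ : AddCommGroup S)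
  (lam : R →+ S) (Φ : ℤ → ℤ → ℕ → R),
  (WSN p a n Φ → WSN p a n (fun x y i => lam (Φ x y i))) ∧
  (Function.Injective lam → WSN p a n (fun x y i => lam (Φ x y i)) → WSN p a n Φ) ∧
  ∀ Φ' : ℤ → ℤ → ℕ → R, (∀ i : ℕ, i ≤ 2 * a → EqC (cp Φ' i) (cp Φ i)) → WSN p a n Φ →
    WSN p a n Φ'

/-- LDEN. Bounded denominators; the same as `StDen` for `WSN` (model:
Pool/Agent/Helper66/WK/M_Den.lean; two matrices which agree modulo `p^n`, if `n = 0` any two). -/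
def StLDen : Prop := StFar → StLMap → ∀ (p a n : ℕ) (Φ : ℤ → ℤ → ℕ → ℚ), p.Prime → WSN p a n Φ →
  ∃ (N : ℤ) (Ψ : ℤ → ℤ → ℕ → ℤ), N ≠ 0 ∧ WSN p a n Ψ ∧
    ∀ i : ℕ, i ≤ 2 * a → EqC (fun x y => ((Ψ x y i : ℤ) : ℚ)) (N • cp Φ i)

/-- LQC. From `ℤ_p` to `ℂ` (model: Pool/Agent/Helper21/WK/M_QC.lean). -/
def StLQC : Prop := StFar → StLMap → StLDen → ∀ (p : ℕ) (_ : Fact p.Prime) (a n : ℕ),
  (∀ Φ : ℤ → ℤ → ℕ → ℤ_[p], WSN p a n Φ → EqC (cp Φ a) 0) →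
  ∀ Φ : ℤ → ℤ → ℕ → ℂ, WSN p a n Φ → EqC (cp Φ a) 0

/-- LW1. As `StW1` (model Pool/Agent/Helper36/WK/M_W1.lean). -/
def StLW1 : Prop := ∀ (p : ℕ) (_ : Fact p.Prime) (a n : ℕ) (Φ : ℤ → ℤ → ℕ → ℤ_[p]),
  WSN p a n Φ → ∀ M : ℕ, 1 ≤ M → SymP p M (M + n) (redP M (cp Φ a))

/-- LW2. As `StW2` (model Pool/Agent/Helper28/WK/M_W2.lean): now all `h`. -/
def StLW2 : Prop := ∀ (p : ℕ) (_ : Fact p.Prime) (a n : ℕ) (Φ : ℤ → ℤ → ℕ → ℤ_[p]),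
  WSN p a n Φ → (∀ h : ℤ, EqC (Nb a h (cp Φ a)) 0) ∧
    (∀ c : ℤ, (p : ℤ) ^ n ∣ c → EqC (Nc a c (cp Φ a)) 0)

/-- LW4. As `StW4` (model Pool/Agent/Helper97/WK/M_W4.lean; only `hk` is used). -/
def StLW4 : Prop := ∀ (p : ℕ) (_ : Fact p.Prime) (a n : ℕ) (Φ : ℤ → ℤ → ℕ → ℤ_[p]),
  WSN p a n Φ → ∀ M : ℕ, 1 ≤ M → ∀ ls : List ℕ, Ok p ls →
    evw ((p : ℤ) ^ M) ls (redP M (cp Φ a)) = 0

/-- LLA. `StLa` without the hypothesis `1 ≤ ν`, for `M ≥ 3` (so `2M + ν ≥ 5`); model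
Pool/Agent/Helper10/WK/M_La.lean. -/
def StLLa : Prop := ∀ (p : ℕ) (_ : Fact p.Prime), TAp p → ∀ (ν M : ℕ) (g : ℤ → ℤ → ZMod (p ^ M)),
  3 ≤ M → SymP p M (M + ν) g → EqC (act 0 (-1) ((p : ℤ) ^ ν) 0 g) (-g) →
  EqC (act (-1) 0 0 1 g) g → (∀ ls : List ℕ, Ok p ls → evw ((p : ℤ) ^ M) ls g = 0) →
  ∃ ψ : ℤ → ℤ → ZMod (p ^ M), SymP p M (M + ν - 1) ψ ∧ EqC (act p 0 0 1 ψ - ψ) ((4 : ℤ) • g)

/-- LLB. `StLb2` without the hypothesis `1 ≤ ν`, for `M ≥ 3`; model Pool/Agent/Helper16/WK/M_Lb2.lean. -/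
def StLLb : Prop := StLLa → UIp → ∀ (p : ℕ) (_ : Fact p.Prime), TAp p →
  ∀ (ν : ℕ) (G : ℤ → ℤ → ℤ_[p]), Homog G → (∀ M : ℕ, 3 ≤ M → SymP p M (M + ν) (redP M G)) →
  EqC (act 0 (-1) ((p : ℤ) ^ ν) 0 G) (-G) → EqC (act (-1) 0 0 1 G) G →
  (∀ M : ℕ, 3 ≤ M → ∀ ls : List ℕ, Ok p ls → evw ((p : ℤ) ^ M) ls (redP M G) = 0) →
  ∃ ψ : ℤ → ℤ → ℤ_[p], Homog ψ ∧ (∀ M : ℕ, 3 ≤ M → SymP p M (M + ν - 1) (redP M ψ)) ∧
    EqC (act p 0 0 1 ψ - ψ) ((4 : ℤ) • G)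

/-- LPOL. Polynomiality in the coordinate `z`. Model: Pool/Agent/Helper63/WK/M_Pol.lean. Proof. Let
`ψ∘u = ψ + 4 G + k` away from the origin. (i) For every `h`: `D_h(v, w) = (Nb a h ψ)(w) - (Nb a h ψ)(v)`
satisfies `D_h(v, w) = D_{p h}(u v, u w)` (as `Nb a h G ≈ 0`), so `D_h(v, w) = D_{p^m h}(u^m v, u^m w)`, which
is `0` modulo `p^M` for `m ≥ M ≥ 3` (`n(j p^m h)` is in the group of level `(M, M+n-1)`); so `D_h = 0`.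
(ii) Let `p^n ∣ c` and `θ = ψ∘u`. `(Nc a c ψ) ≈ (Nc a c θ)` since `Nc a c G ≈ 0`, and
`(Nc a c ψ)(u v) = (Nc a (p c) θ)(v)` (`n'(j c) u = u n'(j p c)`). So `D'_c(v, w)`, the same difference for
`Nc a c θ`, satisfies `D'_c(u v, u w) = D'_{p c}(v, w)`, `D'_c(u^m v, u^m w) = D'_{p^m c}(v, w)`, and
`D'_{p^m c}(v,w)` is the difference of `Nc a (p^m c) ψ`, so `0` modulo `p^M` for `m ≥ M + n`. A vector
`(x, y)` is up to the factor `p^m` equal to `u^m (x, p^m y)` (`Homog`), so `D'_c = 0`. -/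
def StLPol : Prop := ∀ (p : ℕ) (_ : Fact p.Prime) (a n : ℕ) (G ψ : ℤ → ℤ → ℤ_[p]),
  Homog G → Homog ψ → (∀ M : ℕ, 3 ≤ M → SymP p M (M + n - 1) (redP M ψ)) →
  EqC (act p 0 0 1 ψ - ψ) ((4 : ℤ) • G) → (∀ h : ℤ, EqC (Nb a h G) 0) →
  (∀ c : ℤ, (p : ℤ) ^ n ∣ c → EqC (Nc a c G) 0) →
  (∀ h : ℤ, EqC (Nb a h ψ) 0) ∧
    (∀ c : ℤ, (p : ℤ) ^ n ∣ c → EqC (Nc a c (act p 0 0 1 ψ)) 0)

/-- LPOL2. `StPol` without the hypothesis `1 ≤ ν` and for `M ≥ 3`: the same proof, model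
Pool/Agent/Helper63/WK/M_Pol.lean. -/
def StLPol2 : Prop := ∀ (p : ℕ) (_ : Fact p.Prime) (a ν : ℕ) (G ψ : ℤ → ℤ → ℤ_[p]),
  Homog G → Homog ψ → (∀ M : ℕ, 3 ≤ M → SymP p M (M + ν - 1) (redP M ψ)) →
  EqC (act p 0 0 1 ψ - ψ) ((4 : ℤ) • G) → (∀ h : ℤ, (p : ℤ) ∣ h → EqC (Nb a h G) 0) →
  (∀ c : ℤ, (p : ℤ) ^ (ν + 1) ∣ c → EqC (Nc a c G) 0) →
  (∀ h : ℤ, EqC (Nb a h (ψ + (4 : ℤ) • G)) 0) ∧ (∀ c : ℤ, (p : ℤ) ^ ν ∣ c → EqC (Nc a c ψ) 0)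

/-- Functions of a matrix `(α β; γ δ)`, homogeneous polynomials of degree `a` in each row. -/
def Rg {p : ℕ} [Fact p.Prime] (a : ℕ) (F : ℚ_[p] → ℚ_[p] → ℚ_[p] → ℚ_[p] → ℚ_[p]) : Prop :=
  ∃ P : ℕ → ℕ → ℚ_[p], ∀ α β γ δ : ℚ_[p], F α β γ δ =
    ∑ i ∈ Finset.range (a + 1), ∑ j ∈ Finset.range (a + 1),
      P i j * (α ^ (a - i) * β ^ i * (γ ^ j * δ ^ (a - j)))

/-- RGT. Calculus of `Rg`. Proof: `(α a' + β c')^(a-i) (α b' + β d')^i = ∑_k q_k α^(a-k) β^k` (homogeneous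
of degree `a` in `α, β`; prove first: such sums are closed under products and powers of the linear
forms), the same for the second row. The last three: clear from the formula. -/
def RgT : Prop := ∀ (p : ℕ) (_ : Fact p.Prime) (a : ℕ) (F : ℚ_[p] → ℚ_[p] → ℚ_[p] → ℚ_[p] → ℚ_[p]),
  Rg a F →
  (∀ a' b' c' d' : ℚ_[p], Rg a (fun α β γ δ =>
    F (α * a' + β * c') (α * b' + β * d') (γ * a' + δ * c') (γ * b' + δ * d'))) ∧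
  (∀ s t : ℚ_[p], Rg a (fun α β γ δ => F α (s * β) (t * γ) δ)) ∧
  Rg a (fun α β γ δ => F (-γ) (-δ) α β) ∧
  (∀ (G : ℚ_[p] → ℚ_[p] → ℚ_[p] → ℚ_[p] → ℚ_[p]) (c d : ℚ_[p]), Rg a G →
    Rg a (fun α β γ δ => c * F α β γ δ + d * G α β γ δ)) ∧
  (∀ s t α β γ δ : ℚ_[p], F (s * α) (s * β) (t * γ) (t * δ) = (s * t) ^ a * F α β γ δ)

/-- RGU. Uniqueness. Proof: `n'(c) n(x) = (1 x; c 1+cx)` for `x, c` divisible by `p^N` satisfies the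
congruences, so with the coefficients `P i j` of `F`: `∑ P i j x^i c^j (1+cx)^(a-j) = 0`. With
`1 + cx ≠ 0` divide by `(1+cx)^a`: `∑_{i,j} P i j x^i t^j = 0`, `t = c/(1+cx)`. For fixed `x` there are
infinitely many `t`, so `∑_i P i j x^i = 0` for all `j`, for infinitely many `x`, so `P i j = 0`. -/
def RgU : Prop := ∀ (p : ℕ) (_ : Fact p.Prime) (a N : ℕ)
  (F : ℚ_[p] → ℚ_[p] → ℚ_[p] → ℚ_[p] → ℚ_[p]), Rg a F →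
  (∀ α β γ δ : ℤ, α * δ - β * γ = 1 → (p : ℤ) ^ N ∣ α - 1 → (p : ℤ) ^ N ∣ β → (p : ℤ) ^ N ∣ γ →
    (p : ℤ) ^ N ∣ δ - 1 → F α β γ δ = 0) → ∀ α β γ δ : ℚ_[p], F α β γ δ = 0

/-- The content of MCG: the grid. `n'(p^ν c) n(x) v = (v1 + x v2, p^ν c (v1 + x v2) + v2)`. -/
def MCG : Prop := ∀ (p : ℕ) (_ : Fact p.Prime) (a ν : ℕ) (H : ℤ → ℤ → ℤ_[p]), 1 ≤ ν → Homog H →
  (∀ M : ℕ, 3 ≤ M → SymP p M (M + ν) (redP M H)) → (∀ h : ℤ, EqC (Nb a h H) 0) →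
  (∀ c : ℤ, (p : ℤ) ^ ν ∣ c → EqC (Nc a c H) 0) →
  ∀ v1 v2 w1 w2 : ℤ, (v1 ≠ 0 ∨ v2 ≠ 0) → (w1 ≠ 0 ∨ w2 ≠ 0) →
  ∃ P : ℕ → ℕ → ℚ_[p], ∀ (L : ℕ) (x y c : ℤ), 3 ≤ L →
    (p : ℤ) ^ L ∣ c * (1 - (p : ℤ) ^ ν * x * y) - y →
    ‖(1 - (p : ℚ_[p]) ^ ν * x * y) ^ a *
      ((H (w1 + x * w2) ((p : ℤ) ^ ν * c * (w1 + x * w2) + w2) -
        H (v1 + x * v2) ((p : ℤ) ^ ν * c * (v1 + x * v2) + v2) : ℤ_[p]) : ℚ_[p]) -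
      ∑ i ∈ Finset.range (a + 1), ∑ j ∈ Finset.range (a + 1), P i j * ((x : ℚ_[p]) ^ i * (y : ℚ_[p]) ^ j)‖ ≤
      ((p : ℝ) ^ L)⁻¹

/-- MCG. Steps (i), (ii), (iii) of the proof in the docstring of `StMC` below. -/
def StMCG : Prop := StGp → StPl1 → StCC → MCG

/-- The content of MC. -/
def MC : Prop := ∀ (p : ℕ) (_ : Fact p.Prime) (a ν : ℕ) (H : ℤ → ℤ → ℤ_[p]), 1 ≤ ν → Homog H →
  (∀ M : ℕ, 3 ≤ M → SymP p M (M + ν) (redP M H)) → (∀ h : ℤ, EqC (Nb a h H) 0) →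
  (∀ c : ℤ, (p : ℤ) ^ ν ∣ c → EqC (Nc a c H) 0) →
  ∀ v1 v2 w1 w2 : ℤ, (v1 ≠ 0 ∨ v2 ≠ 0) → (w1 ≠ 0 ∨ w2 ≠ 0) →
  ∃ F : ℚ_[p] → ℚ_[p] → ℚ_[p] → ℚ_[p] → ℚ_[p], Rg a F ∧ ∀ α β γ δ : ℤ,
    α * δ - β * γ = 1 → (p : ℤ) ^ ν ∣ γ →
    ((H (α * w1 + β * w2) (γ * w1 + δ * w2) - H (α * v1 + β * v2) (γ * v1 + δ * v2) : ℤ_[p]) :
      ℚ_[p]) = F α β γ δ

/-- MC (from MCG, which is steps (i)-(iii); prove step (iv)). The grid: `H` is a bihomogeneous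
function along `Γ₀(p^ν)`. Proof. Fix `D = (v, w)`. (i) For
fixed `x` let `P(c) = H(n'(p^ν c) n(x) D)`; `Plf a P` (hypothesis on `Nc a (p^ν) H`, as in the proof of
`hG5`, Pool/Agent/Helper15/WK/M_G5.lean); `StGp` (with the roles of `x` and `y` exchanged) gives a
polynomial `f_x` of degree `≤ a` and `K` with `‖(1 - p^ν x y)^a P(c) - f_x(y)‖ ≤ K p^(-L)` whenever
`c (1 - p^ν x y) ≡ y` modulo `p^L`. For fixed `y` the same for `b ↦ H(n(b) n'(p^ν y) D)`: polynomial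
`g_y` in `x`. By `StCC` (for `redP L H`, `L ≥ 3`) the two values are congruent modulo `p^L` if both
congruences hold, and for all `x, y, L` there are such `b, c` (`1 - p^ν x y` is prime to `p`). So
`f_x(y) = g_y(x)` for all integers `x, y`. (ii) A function `f(x,y)` on `ℤ × ℤ` which is a polynomial of
degree `≤ a` in each variable is `∑_{i,j ≤ a} P_ij x^i y^j` (Lagrange interpolation at the points
`0, ..., a` in each variable). Put `F(α,β,γ,δ) = ∑ P_ij p^(-νj) α^(a-i) β^i γ^j δ^(a-j)`. (iii) Uniform bound: for all integers `x, y, c` and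
`L ≥ 3` with `c (1 - p^ν x y) ≡ y` modulo `p^L`: `‖(1 - p^ν x y)^a H(n'(p^ν c) n(x) D) - f(x, y)‖ ≤ p^(-L)`.
(Choose `c'` with the congruence modulo `p^L'`, `L' ≥ L` so large that `K p^(-L') ≤ p^(-L)`; `c' ≡ c` modulo
`p^L`, so `H(n'(p^ν c') n(x) D) ≡ H(n'(p^ν c) n(x) D)` modulo `p^L` by the level of `redP L H`.) (iv) Let
`g = (α β; γ δ)`, `αδ - βγ = 1`, `p^ν ∣ γ`, so `α, δ` are prime to `p`. For `L ≥ 3` choose integers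
`x ≡ β/α`, `y ≡ (γ/p^ν)/δ`, `c ≡ α (γ/p^ν)` modulo `p^L`; then `c (1 - p^ν x y) ≡ y`
(`1 - βγ/(αδ) = 1/(αδ)`). The matrix `g (n'(p^ν c) n(x))⁻¹` has upper right entry `β - α x`, divisible by
`p^L`, and lower left entry `γ (1 + p^ν c x) - p^ν c δ`, divisible by `p^(L+ν)`, so
`H(g D) ≡ H(n'(p^ν c) n(x) D)` modulo `p^L`. So `‖(1 - p^ν x y)^a H(gD) - f(x, y)‖ ≤ p^(-L)`, and for
`L → ∞`: `x → β/α`, `y → γ/(p^ν δ)`, `1 - p^ν x y → 1/(αδ)`: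
`(αδ)^(-a) H(gD) = ∑ P_ij (β/α)^i (γ/(p^ν δ))^j`, that is `H(gD) = F(α,β,γ,δ)`. -/
def StMC : Prop := MCG → MC

/-- The content of MS. -/
def MS : Prop := ∀ (p : ℕ) (_ : Fact p.Prime) (a : ℕ) (H : ℤ → ℤ → ℤ_[p]), Homog H →
  (∀ M : ℕ, 3 ≤ M → SymP p M (M + 1) (redP M H)) → (∀ h : ℤ, EqC (Nb a h H) 0) →
  (∀ c : ℤ, EqC (Nc a c H) 0) →
  ∃ F : ℤ → ℤ → ℤ → ℤ → ℚ_[p] → ℚ_[p] → ℚ_[p] → ℚ_[p] → ℚ_[p],
    ∀ v1 v2 w1 w2 : ℤ, (v1 ≠ 0 ∨ v2 ≠ 0) → (w1 ≠ 0 ∨ w2 ≠ 0) → Rg a (F v1 v2 w1 w2) ∧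
    ∀ α β γ δ : ℤ, α * δ - β * γ = 1 →
    ((H (α * w1 + β * w2) (γ * w1 + δ * w2) - H (α * v1 + β * v2) (γ * v1 + δ * v2) : ℤ_[p]) :
      ℚ_[p]) = F v1 v2 w1 w2 α β γ δ

/-- MS. The same for the whole group `SL₂(ℤ)`. Proof. Let `F_D` be given by MC with `ν = 1`. Let `E`
be the set of integral matrices `g` of determinant one with, for all `D` (nonzero vectors):
`H(gD) = F_D(g)`, and for all `x` (matrix over `ℚ_p`) `F_{gD}(x) = F_D(x g)`. `E` is closed under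
products: `H(ghD) = F_{hD}(g) = F_D(gh)`, `F_{ghD}(x) = F_{hD}(xg) = F_D(xgh)`. (1) `Γ₀(p) ⊂ E`: both
sides of the second are `Rg` in `x` (RGT) and agree for integral `x` in `Γ₀(p)` (`F_{gD}(x) = H(xgD) =`
`F_D(xg)`), so they are equal (RGU). (2) `n'(c)` in `E` for every integer `c`: `H(n'(c)D)` is killed by
the `(a+1)`-st difference in `c`, so it is a polynomial in `c` (PL1), and `F_D(1,0,c,1)` is a polynomial in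
`c`; they agree for `p ∣ c`, so for all `c`: `H(n'(c)D) = F_D(n'(c))` (*). For `x ≡ 1` modulo `p²` put
`x' = n'(-c) x n'(c)`, integral in `Γ₀(p)`, `x n'(c) = n'(c) x'`: `F_D(x n'(c)) = F_D(n'(c) x') =`
`F_{x'D}(n'(c)) = H(n'(c) x' D) = H(x n'(c) D) = F_{n'(c)D}(x)`; RGU with `N = 2`. (3) `SL₂(ℤ)` is
generated by `n(±1)` and `n'(±1)`. -/
def StMS : Prop := MC → StPl1 → RgT → RgU → MS

/-- UIW. The involution. For `n = 0` with `W = S`, for `n = 1` with `W = (0 -1; p 0)`; in both cases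
`ψ∘W ≈ ψ∘u`. Proof. `χ = ψ∘W - ψ∘u`. `W u` is a multiple of `u⁻¹ W`: for a nonzero `v` the vectors
`W (u v)` and `v'` with `u v' = (multiple of) W v`: precisely `u (W (u (x, y))) = p · W (x, y)`:
`W(px, y) = (-y, p^(n+1) x)`, `u` of it `= (-p y, p^(n+1) x) = p (-y, p^n x)`. So with
`ψ(u z) = ψ(z) + 4 G(z) + k`: `ψ(W v) = ψ(u W u v) = ψ(W u v) + 4 G(W u v) + k`, and
`ψ(u u v) = ψ(u v) + 4 G(u v) + k`; `χ(u v) = ψ(W u v) - ψ(u u v) = ψ(Wv) - ψ(uv) - 4 (G(W u v) + G(u v)) - 2k`,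
and `G∘W ≈ -G`: `χ∘u ≈ χ`. Modulo `p^M` (`M ≥ 3`) `χ` is a symbol of level `(M+n+1, M+n+1)` (for
`κ = (α β; γ δ)`: `u κ = (α pβ; γ/p δ) u`, `W κ = (δ -γ/p^n; -p^n β α) W`), so `redP M χ ≈ 0` by UIp, for all
`M`, so `χ ≈ 0`. -/
def StUIW : Prop := UIp → ∀ (p : ℕ) (_ : Fact p.Prime) (n : ℕ) (G ψ : ℤ → ℤ → ℤ_[p]),
  Homog ψ → (∀ M : ℕ, 3 ≤ M → SymP p M (M + n - 1) (redP M ψ)) →
  EqC (act p 0 0 1 ψ - ψ) ((4 : ℤ) • G) → EqC (act 0 (-1) ((p : ℤ) ^ n) 0 G) (-G) →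
  EqC (act 0 (-1) ((p : ℤ) ^ n) 0 ψ) (act p 0 0 1 ψ)

/-- The content of UIW. -/
def UIW : Prop := ∀ (p : ℕ) (_ : Fact p.Prime) (n : ℕ) (G ψ : ℤ → ℤ → ℤ_[p]),
  Homog ψ → (∀ M : ℕ, 3 ≤ M → SymP p M (M + n - 1) (redP M ψ)) →
  EqC (act p 0 0 1 ψ - ψ) ((4 : ℤ) • G) → EqC (act 0 (-1) ((p : ℤ) ^ n) 0 G) (-G) →
  EqC (act 0 (-1) ((p : ℤ) ^ n) 0 ψ) (act p 0 0 1 ψ)

/-- F0. Level one. Proof. `Nc a c ψ ≈ 0` for all `c` (from `ψ∘u = ψ + 4G + k` and the hypotheses). Let `F_D`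
be given by MS for `ψ`. (1) For all `D` and all `α, β, γ, δ` in `ℚ_p`:
`F_{uD}(α, pβ, γ/p, δ) = F_D(-γ, -δ, α, β)` (R). Both sides are `Rg` (RGT), so by RGU it is enough to have
it for integral `g = (α β; γ δ)` in `Γ₀(p)`: there `u g = g' u`, `g' = (α pβ; γ/p δ)` integral, so
`F_{uD}(g') = ψ(g' u D) = ψ(u g D)`, and by the hypothesis on `ψ∘S` this is `ψ(S g D) = F_D(S g)`,
`S g = (-γ -δ; α β)`. (2) (R) at `(1, 0, 0, 1)` for `uD`: `F_{uuD}(1,0,0,1) = F_{uD}(0,-1,1,0)`, and (R) at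
`α = 0`, `β = -1/p`, `γ = p`, `δ = 0`: `F_{uD}(0,-1,1,0) = F_D(-p, 0, 0, -1/p) = F_D(1,0,0,1)` (bihomogeneity,
RGT). So `ψ(u u D) = ψ(D)` for all `D`. (3) So modulo `p^M` (`M ≥ 3`) `redP M ψ`, a symbol of level
`(M, M-1)` for `p` and so of level `(M, M)` for the number `p²`, is invariant under `(p² 0; 0 1)`; UIp for
`p²`: `redP M ψ ≈ 0`, for all `M`; so `ψ ≈ 0` and `4 G ≈ 0`, `G ≈ 0`. -/
def StF0 : Prop := MS → RgT → RgU → UIp → ∀ (p : ℕ) (_ : Fact p.Prime) (a : ℕ)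
  (G ψ : ℤ → ℤ → ℤ_[p]), Homog ψ → (∀ M : ℕ, 3 ≤ M → SymP p M (M - 1) (redP M ψ)) →
  EqC (act p 0 0 1 ψ - ψ) ((4 : ℤ) • G) → (∀ c : ℤ, EqC (Nc a c G) 0) →
  (∀ h : ℤ, EqC (Nb a h ψ) 0) → (∀ c : ℤ, EqC (Nc a c (act p 0 0 1 ψ)) 0) →
  EqC (act 0 (-1) 1 0 ψ) (act p 0 0 1 ψ) → EqC G 0

/-- The function of a matrix given by a symbol of weight `2a+2`:
`Φ(D)` at the polynomial `(αX+β)^a (γX+δ)^a`. -/
noncomputable def EGf {p : ℕ} [Fact p.Prime] (a : ℕ) (Φ : ℤ → ℤ → ℕ → ℤ_[p])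
    (v1 v2 w1 w2 : ℤ) (α β γ δ : ℚ_[p]) : ℚ_[p] :=
  ∑ s ∈ Finset.range (2 * a + 1), ((Polynomial.C α * Polynomial.X + Polynomial.C β) ^ a *
    (Polynomial.C γ * Polynomial.X + Polynomial.C δ) ^ a : Polynomial ℚ_[p]).coeff s *
    ((Φ w1 w2 s - Φ v1 v2 s : ℤ_[p]) : ℚ_[p])

/-- The content of EG. -/
def EG : Prop := ∀ (p : ℕ) (_ : Fact p.Prime) (a : ℕ) (Φ : ℤ → ℤ → ℕ → ℤ_[p]),
  (∀ v1 v2 w1 w2 : ℤ, Rg a (EGf a Φ v1 v2 w1 w2)) ∧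
  (∀ (v1 v2 w1 w2 : ℤ) (α β γ δ : ℚ_[p]),
    EGf a Φ v1 v2 w1 w2 (-γ) (-δ) α β = (-1) ^ a * EGf a Φ v1 v2 w1 w2 α β γ δ) ∧
  (∀ v1 v2 w1 w2 : ℤ, EGf a Φ v1 v2 w1 w2 1 0 0 1 = ((Φ w1 w2 a - Φ v1 v2 a : ℤ_[p]) : ℚ_[p])) ∧
  (∀ v1 v2 w1 w2 α β γ δ : ℤ, (v1 ≠ 0 ∨ v2 ≠ 0) → (w1 ≠ 0 ∨ w2 ≠ 0) →
    EqC (act α β γ δ (cp Φ a)) (pr Φ ((Polynomial.C α * Polynomial.X + Polynomial.C β) ^ a *
      (Polynomial.C γ * Polynomial.X + Polynomial.C δ) ^ a)) →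
    ((Φ (α * w1 + β * w2) (γ * w1 + δ * w2) a - Φ (α * v1 + β * v2) (γ * v1 + δ * v2) a : ℤ_[p]) :
      ℚ_[p]) = EGf a Φ v1 v2 w1 w2 α β γ δ)

/-- EG. Proof. The coefficient of `X^s` in `(αX+β)^a (γX+δ)^a` is a sum of monomials
`α^(a-i) β^i γ^j δ^(a-j)` times integers (binomial theorem), so `Rg`. The second: exchange the factors,
`(-γX-δ)^a = (-1)^a (γX+δ)^a`. The third: `X^a`. The fourth: `pr_eq_sum` (degree `≤ 2a`) and the map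
`ℤ[X] → ℚ_p[X]`. -/
def StEG : Prop := EG

/-- F1. Level `p`, `a` odd. Proof. With `ψ(u z) = ψ(z) + 4 G(z) + k`, `G = cp Φ a`. (0) `Nc a c ψ ≈ 0` for all
integers `c`: `(Nc a c ψ)(u v) = (Nc a (p c) (ψ∘u))(v)`, constant, and `(x, y)` is up to a factor
`u (x, p y)`. (1) `ψ∘S ≈ ψ`: by hypothesis `ψ(S u v) = ψ(u v) + const`, and every nonzero vector is up to
a factor of the form `u v`. (2) Let `F_D` be given by MS for `ψ` (level `(M, M)`, so `(M, M+1)`).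
`F_D(-γ,-δ,α,β) = F_D(α,β,γ,δ)` for all `α..δ` in `ℚ_p`: RGU, for integral `g` the left side is
`ψ(S g D) = ψ(g D)`. (3) `4 EGf_D(α,β,γ,δ) = F_{uD}(α, pβ, γ/p, δ) - F_D(α,β,γ,δ)` for all `α..δ`: RGU; for
integral `g` in `Γ₀(p)`: `u g = g' u`, `g' = (α pβ; γ/p δ)`, `F_{uD}(g') = ψ(u g D)`, and
`4 G(g D) = ψ(u g D) - ψ(g D)` (EG, `eqv` for `i = a`). (4) The right side of (3) does not change under
`(α,β,γ,δ) ↦ (-γ,-δ,α,β)`: for the second term (2); for the first: `F_{uD}(-γ, -pδ, α/p, β) =`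
`F_{uD}(-γ/p, -δ, α, pβ)` (bihomogeneity with `s = p`, `t = 1/p`) `= F_{uD}(α, pβ, γ/p, δ)` (2). The left side
changes its sign (EG, `a` odd). So `EGf_D = 0`, at `(1,0,0,1)`: `G(w) = G(v)`. -/
def StF1 : Prop := MS → RgT → RgU → EG → ∀ (p : ℕ) (_ : Fact p.Prime) (a : ℕ)
  (Φ : ℤ → ℤ → ℕ → ℤ_[p]) (ψ : ℤ → ℤ → ℤ_[p]), Odd a →
  (∀ α β γ δ : ℤ, α * δ - β * γ = 1 → (p : ℤ) ∣ γ →
    EqC (act α β γ δ (cp Φ a)) (pr Φ ((Polynomial.C α * Polynomial.X + Polynomial.C β) ^ a *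
      (Polynomial.C γ * Polynomial.X + Polynomial.C δ) ^ a))) →
  Homog ψ → (∀ M : ℕ, 3 ≤ M → SymP p M M (redP M ψ)) →
  EqC (act p 0 0 1 ψ - ψ) ((4 : ℤ) • cp Φ a) →
  (∀ h : ℤ, EqC (Nb a h ψ) 0) → (∀ c : ℤ, (p : ℤ) ∣ c → EqC (Nc a c (act p 0 0 1 ψ)) 0) →
  EqC (act 0 (-1) (p : ℤ) 0 ψ) (act p 0 0 1 ψ) → EqC (cp Φ a) 0

/-- LALL. As `StAll` (model Pool/Agent/Helper32/WK/M_All.lean). -/
def StLAll : Prop := ∀ (p a n : ℕ) (Φ : ℤ → ℤ → ℕ → ℂ), p.Prime → WSN p a n Φ → EqC (cp Φ a) 0 →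
  ∀ i : ℕ, i ≤ 2 * a → EqC (cp Φ i) 0

/-- The properties of the Eichler potentials of a form of level `p^n` (coordinate `z`) whose
central component is anti-invariant under the Fricke involution. -/
structure IDn (p a n : ℕ) (I : ℤ → ℤ → ℕ → ℂ) : Prop where
  hom : ∀ i : ℕ, i ≤ 2 * a → Homog (cp I i)
  inf : ∀ i : ℕ, i ≤ 2 * a → I 1 0 i = 0
  eqv : ∀ α β γ δ : ℤ, α * δ - β * γ = 1 → (p : ℤ) ^ n ∣ γ → ∀ i : ℕ, i ≤ 2 * a →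
    EqC (act α β γ δ (cp I i)) (pr I ((Polynomial.C α * Polynomial.X + Polynomial.C β) ^ i *
      (Polynomial.C γ * Polynomial.X + Polynomial.C δ) ^ (2 * a - i)))
  fr : EqC (act 0 (-1) ((p : ℤ) ^ n) 0 (cp I a)) (-(cp I a))
  hk : ∃ lam : ℕ → ℂ, ∀ (l : ℕ) (m : ℤ), l.Prime → l ≠ p → IsCoprime m (l : ℤ) →
    ∀ i : ℕ, i ≤ 2 * a → ∀ x y : ℤ, (x ≠ 0 ∨ y ≠ 0) →
    (∑ j ∈ Finset.range l, pr I ((Polynomial.C (l : ℤ) * Polynomial.X -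
      Polynomial.C (m * j)) ^ i) (x + m * j * y) (l * y)) +
      ((l : ℤ) ^ (2 * a - i)) • I (l * x) y i = lam l * I x y i

/-- The symmetrised potentials. -/
noncomputable def PhN (a : ℕ) (I : ℤ → ℤ → ℕ → ℂ) : ℤ → ℤ → ℕ → ℂ := fun x y i =>
  I x y i + ((-1 : ℤ) ^ (a + i)) • I (-x) y i

/-- LTR. Transport; simpler version of `StTr` (model Pool/Agent/Helper12/WK/M_Tr.lean). Proof. For
`P` of degree `≤ 2a`: `pr Φ P (x, y) = pr I P (x, y) + (-1)^a pr I (P(-X)) (-x, y)` (0), `Φ = PhN a I`.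
`eqv`: `κ = (α β; γ δ)`, `κ (x, y) = (x', y')`, `(-x', y') = (α -β; -γ δ) (-x, y)`; `I.eqv` for both.
`fr`: `Φ_a(-y, p^n x) = I_a(-y, p^n x) + I_a(y, p^n x)`; `I.fr` at `(x, y)` and (`Homog`) at `(-x, y)`. `st`:
clear (`(-1)^(a+a) = 1`). `hk`: by (0) and `I.hk` with `m = p^M` at `(x, y)` and `m = -p^M` at `(-x, y)`:
`(WT a l (p^M) Φ) x y i = lam l * Φ x y i`, so a word multiplies `Φ` by a constant away from the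
origin, `Φ_a(1,0) = 0`, `Φ_a(0,1) = 2 I_a(0,1) = 0`. -/
def StLTr : Prop := ∀ (p a n : ℕ) (I : ℤ → ℤ → ℕ → ℂ), p.Prime → IDn p a n I → I 0 1 a = 0 →
  WSN p a n (PhN a I)

/-! ### Level `p²` (the structure `WSymP p a 0`, coordinate `p z`) -/

/-- M2A. `StW1` without `1 ≤ ν` (model Pool/Agent/Helper36/WK/M_W1.lean). -/
def StM2A : Prop := ∀ (p : ℕ) (_ : Fact p.Prime) (a ν : ℕ) (Φ : ℤ → ℤ → ℕ → ℤ_[p]),
  WSymP p a ν Φ → ∀ M : ℕ, 1 ≤ M → SymP p M (M + ν) (redP M (cp Φ a))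

/-- M2B. The trace relations for `EGf`. Proof. `c_s` the coefficients of `(αX+β)^a (γX+δ)^a`. First:
`(αX+β-iα)^a (γX+δ-iγ)^a = ∑_s c_s (X-i)^s`, and `tt` for `j = s ≤ 2a` at the vectors `v`, `w` (difference).
Second: `((α-iβ)X+β)^a ((γ-iδ)X+δ)^a = ∑_s c_s X^s (1-iX)^(2a-s)` (homogenise: `(αX+β(1-iX))^a (γX+δ(1-iX))^a`),
and `ss` for `j = s`. -/
def StM2B : Prop := ∀ (p : ℕ) (_ : Fact p.Prime) (a : ℕ) (Φ : ℤ → ℤ → ℕ → ℤ_[p]),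
  WSymP p a 0 Φ → ∀ v1 v2 w1 w2 : ℤ, (v1 ≠ 0 ∨ v2 ≠ 0) → (w1 ≠ 0 ∨ w2 ≠ 0) →
  ∀ α β γ δ : ℚ_[p],
  (∑ i ∈ Finset.range p, EGf a Φ (v1 + i * v2) v2 (w1 + i * w2) w2
    α (β - i * α) γ (δ - i * γ)) = 0 ∧
  (∑ i ∈ Finset.range p, EGf a Φ v1 (i * v1 + v2) w1 (i * w1 + w2)
    (α - i * β) β (γ - i * δ) δ) = 0

/-- The content of AV. -/
def AV : Prop := ∀ (p : ℕ) (_ : Fact p.Prime) (m m' : ℤ → ℤ → ℤ → ℤ → ℚ_[p]),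
  (∀ x y z t α β γ δ : ℤ, x * t - y * z = 1 → α * δ - β * γ = 1 → (p : ℤ) ∣ y →
    m (x * α + y * γ) (x * β + y * δ) (z * α + t * γ) (z * β + t * δ) = m α β γ δ) →
  (∀ x y z t α β γ δ : ℤ, x * t - y * z = 1 → α * δ - β * γ = 1 → (p : ℤ) ∣ z →
    m' (x * α + y * γ) (x * β + y * δ) (z * α + t * γ) (z * β + t * δ) = m' α β γ δ) →
  (∀ α β γ δ : ℤ, α * δ - β * γ = 1 →
    (p : ℚ_[p]) * m' α β γ δ = ∑ i ∈ Finset.range p, m (α + i * γ) (β + i * δ) γ δ) →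
  (∀ α β γ δ : ℤ, α * δ - β * γ = 1 →
    (p : ℚ_[p]) * m α β γ δ = ∑ i ∈ Finset.range p, m' α β (i * α + γ) (i * β + δ)) →
  ∀ α β γ δ : ℤ, α * δ - β * γ = 1 → m α β γ δ = m' α β γ δ

/-- AV. Averaging over the projective line modulo `p`. Proof. Matrices `g` of determinant one;
`m(κ g) = m(g)` for `κ` in `Γ^0(p)` (upper right entry divisible by `p`), `m'(κ g) = m'(g)` for `κ` in
`Γ₀(p)`; `p m'(g) = ∑_{i<p} m(n(i) g)`, `p m(g) = ∑_{i<p} m'(n'(i) g)`. Let `σ = (0 1; -1 0)`,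
`s(g) = m(σ g) + ∑_{i<p} m(n(i) g)`. (1) `s(n(1) g) = s(g)`: `σ n(1) = n'(-1) σ`, and
`∑_{i<p} m(n(i+1) g) = ∑_{i<p} m(n(i) g)` since `m(n(p) g) = m(g)`. (2) `s(σ g) = s(g)`: `m(σσg) = m(g)`
(`σσ = -1`); `m(n(0)σg) = m(σg)`; for `0 < i < p`: `n(i) σ = (-i 1; -1 0)` has first row proportional
modulo `p` to the first row `(1, i')` of `n(i')`, `i i' ≡ -1`, so `n(i) σ n(i')⁻¹` is in `Γ^0(p)` (its upper
right entry is `1 + i i'`) and `m(n(i)σg) = m(n(i')g)`; `i ↦ i'` is a permutation of `{1,...,p-1}`. (3) So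
`s` is invariant under `SL₂(ℤ)` (generated by `n(±1)`, `σ`). (4) `p m'(g) = s(g) - m(σ g)`.
`p² m(g) = ∑_i p m'(n'(i) g) = p s(g) - ∑_i m(σ n'(i) g)`, `σ n'(i) = n(-i) σ`,
`∑_i m(n(-i) σ g) = ∑_i m(n(i) σ g) = s(σ g) - m(σσg) = s(g) - m(g)`. So `(p² - 1) m(g) = (p - 1) s(g)`: `m` is
`SL₂(ℤ)`-invariant, and `p m'(g) = ∑_i m(n(i) g) = p m(g)`. -/
def StAV : Prop := AV

/-- F2. Level `p²`. Proof. `G = cp Φ a`, `θ = ψ∘u ≈ ψ + 4 G`. `θ`: `Nb a h θ ≈ 0` for all `h`,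
`Nc a c θ ≈ 0` for `p ∣ c` (hypothesis for `ψ`, `StW2` for `G`), level `(M, M+1)` modulo `p^M`. MC (`ν = 1`)
gives `F'_D` in `Rg` with `θ(gD) = F'_D(g)` for `g` in `Γ₀(p)`. `ψ`: `Nc a c ψ ≈ 0` for all `c`,
`Nb a h ψ ≈ 0` for `p ∣ h` (`ψ = θ - 4G`). For `ψ' = ψ∘S` (`n'`, `n` exchanged: `S n(b) = n'(-b) S`,
`S n'(c) = n(-c) S`) MC gives, with `D' = S⁻¹ D` and `h = S g S⁻¹`, `F_D` in `Rg` with `ψ(hD) = F_D(h)` for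
`h` in `Γ^0(p)` (`Rg` is preserved: RGT). Equivariance (RGU, as in MS (1)): `F_{gD}(x) = F_D(xg)`, `g` in
`Γ^0(p)`, `F'_{gD}(x) = F'_D(xg)`, `g` in `Γ₀(p)`, all `x` over `ℚ_p`. `4 EGf_D = F'_D - F_D` everywhere
(RGU, on `Γ₀(p) ∩ Γ^0(p)`, EG). Fix `D`; for integral `g` of determinant one put
`m(g) = F_{gD}(g⁻¹)`, `m'(g) = F'_{gD}(g⁻¹)` (and `0` for other determinants). Invariance: by equivariance.
`p m'(g) - ∑_i m(n(i)g) = ∑_i (F' - F)_{n(i)gD}(g⁻¹ n(i)⁻¹) = 4 ∑_i EGf_{n(i)D'}(x n(i)⁻¹) = 0` with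
`D' = gD`, `x = g⁻¹` (M2B), the second relation in the same way. AV: `m(1) = m'(1)`:
`4 G(D) = θ(D) - ψ(D) = F'_D(1) - F_D(1) = 0`. -/
def StF2 : Prop := MC → RgT → RgU → EG → StM2B → AV → StW2 → ∀ (p : ℕ) (_ : Fact p.Prime) (a : ℕ)
  (Φ : ℤ → ℤ → ℕ → ℤ_[p]) (ψ : ℤ → ℤ → ℤ_[p]), WSymP p a 0 Φ →
  Homog ψ → (∀ M : ℕ, 3 ≤ M → SymP p M (M - 1) (redP M ψ)) →
  EqC (act p 0 0 1 ψ - ψ) ((4 : ℤ) • cp Φ a) →
  (∀ h : ℤ, EqC (Nb a h (ψ + (4 : ℤ) • cp Φ a)) 0) → (∀ c : ℤ, EqC (Nc a c ψ) 0) →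
  EqC (cp Φ a) 0

end Pool.Agent.Helper28.LV
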