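import Pool.Agent.Helper28.LV.StL

/-!
# Assembly over `ℤ_p` for the levels `1`, `p`, `p²`
-/

set_option autoImplicit false

open Pool.Agent.Helper14.CV Pool.Agent.Helper28.WK

namespace Pool.Agent.Helper28.LV

theorem hZ0 (la : StLLa) (lb : StLLb) (ui : UIp) (pol : StLPol) (uiw : UIW) (ms : MS) (rt : RgT)
    (ru : RgU) (f0 : StF0) (w1 : StLW1) (w2 : StLW2) (w4 : StLW4) (p : ℕ) (hp : Fact p.Prime)
    (hTA : TAp p) (a : ℕ) (Φ : ℤ → ℤ → ℕ → ℤ_[p]) (hW : WSN p a 0 Φ) : EqC (cp Φ a) 0 := by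
  obtain ⟨ψ, hψ1, hψ2, hψ3⟩ := lb la ui p hp hTA 0 (cp Φ a) (hW.hom a (by omega))
    (fun M hM => w1 p hp a 0 Φ hW M (by omega)) hW.fr
    hW.st (fun M hM ls hls => w4 p hp a 0 Φ hW M (by omega) ls hls)
  obtain ⟨hb, hc⟩ := w2 p hp a 0 Φ hW
  obtain ⟨hb', hc'⟩ := pol p hp a 0 (cp Φ a) ψ (hW.hom a (by omega)) hψ1 hψ2 hψ3 hb hc
  have hI := uiw p hp 0 (cp Φ a) ψ hψ1 hψ2 hψ3 hW.fr
  rw [pow_zero] at hI
  exact f0 ms rt ru ui p hp a (cp Φ a) ψ hψ1 (fun M hM => by simpa using hψ2 M hM) hψ3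
    (fun c => hc c (by simp)) hb' (fun c => hc' c (by simp)) hI

theorem hZ1 (la : StLLa) (lb : StLLb) (ui : UIp) (pol : StLPol) (uiw : UIW) (ms : MS) (rt : RgT)
    (ru : RgU) (eg : EG) (f1 : StF1) (w1 : StLW1) (w2 : StLW2) (w4 : StLW4) (p : ℕ)
    (hp : Fact p.Prime) (hTA : TAp p) (a : ℕ) (ha : Odd a) (Φ : ℤ → ℤ → ℕ → ℤ_[p])
    (hW : WSN p a 1 Φ) : EqC (cp Φ a) 0 := by
  obtain ⟨ψ, hψ1, hψ2, hψ3⟩ := lb la ui p hp hTA 1 (cp Φ a) (hW.hom a (by omega))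
    (fun M hM => w1 p hp a 1 Φ hW M (by omega)) hW.fr
    hW.st (fun M hM ls hls => w4 p hp a 1 Φ hW M (by omega) ls hls)
  obtain ⟨hb, hc⟩ := w2 p hp a 1 Φ hW
  obtain ⟨hb', hc'⟩ := pol p hp a 1 (cp Φ a) ψ (hW.hom a (by omega)) hψ1 hψ2 hψ3 hb hc
  have hI := uiw p hp 1 (cp Φ a) ψ hψ1 hψ2 hψ3 hW.fr
  rw [pow_one] at hI
  refine f1 ms rt ru eg p hp a Φ ψ ha ?_ hψ1 (fun M hM => by simpa using hψ2 M hM) hψ3
    hb' (fun c h => hc' c (by simpa using h)) hI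
  intro α β γ δ hd hg
  have h := hW.eqv α β γ δ hd (by simpa using hg) a (by omega)
  rwa [show 2 * a - a = a by omega] at h

theorem hZ2 (la : StLLa) (lb : StLLb) (ui : UIp) (pol : StLPol2) (mc : MC) (rt : RgT)
    (ru : RgU) (eg : EG) (m2b : StM2B) (av : AV) (f2 : StF2) (w1 : StM2A) (w2 : StW2)
    (w4 : StW4) (p : ℕ)
    (hp : Fact p.Prime) (hTA : TAp p) (a : ℕ) (Φ : ℤ → ℤ → ℕ → ℤ_[p])
    (hW : WSymP p a 0 Φ) : EqC (cp Φ a) 0 := by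
  obtain ⟨ψ, hψ1, hψ2, hψ3⟩ := lb la ui p hp hTA 0 (cp Φ a) (hW.hom a (by omega))
    (fun M hM => w1 p hp a 0 Φ hW M (by omega)) hW.fr
    hW.st (fun M hM ls hls => w4 p hp a 0 Φ hW M (by omega) ls hls)
  obtain ⟨hb, hc⟩ := w2 p hp a 0 Φ hW
  obtain ⟨hb', hc'⟩ := pol p hp a 0 (cp Φ a) ψ (hW.hom a (by omega)) hψ1 hψ2 hψ3 hb hc
  exact f2 mc rt ru eg m2b av w2 p hp a Φ ψ hW hψ1 (fun M hM => by simpa using hψ2 M hM) hψ3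
    hb' (fun c => hc' c (by simp))

/-- From `ℤ_p` to `ℂ` for the structure `WSymP`. -/
theorem qc2 (hFar : StFar) (hM : StMap) (hD : StDen) (p : ℕ) (hp : Fact p.Prime) (a ν : ℕ)
    (hZ : ∀ Φ : ℤ → ℤ → ℕ → ℤ_[p], WSymP p a ν Φ → EqC (cp Φ a) 0)
    (Φ : ℤ → ℤ → ℕ → ℂ) (hW : WSymP p a ν Φ) : EqC (cp Φ a) 0 := by
  have key : ∀ lam : ℂ →ₗ[ℚ] ℚ, ∀ x y : ℤ, (x ≠ 0 ∨ y ≠ 0) →
      lam (Φ x y a - Φ 1 0 a) = 0 := by
    intro lam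
    have h1 : WSymP p a ν (fun x y i => lam (Φ x y i)) :=
      (hM p a ν hp.out.ne_zero ℂ ℚ inferInstance inferInstance lam.toAddMonoidHom Φ).1 hW
    obtain ⟨N, Ψ, hN, hΨ, hE⟩ := hD hFar hM p a ν _ hp.out h1
    have h2 : WSymP p a ν (fun x y i => ((Ψ x y i : ℤ) : ℤ_[p])) :=
      (hM p a ν hp.out.ne_zero ℤ ℤ_[p] inferInstance inferInstance (Int.castAddHom ℤ_[p]) Ψ).1 hΨ
    obtain ⟨c, hc⟩ := hZ _ h2
    obtain ⟨c', hc'⟩ := hE a (by omega)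
    intro x y hxy
    have e0 : (Ψ x y a : ℤ_[p]) = 0 + c := hc x y hxy
    have e0' : (Ψ 1 0 a : ℤ_[p]) = 0 + c := hc 1 0 (Or.inl one_ne_zero)
    have e1 : (Ψ x y a : ℤ_[p]) = (Ψ 1 0 a : ℤ_[p]) := e0.trans e0'.symm
    have e2 : Ψ x y a = Ψ 1 0 a := Int.cast_injective e1
    have e3 : ((Ψ x y a : ℤ) : ℚ) = N • lam (Φ x y a) + c' := hc' x y hxy
    have e4 : ((Ψ 1 0 a : ℤ) : ℚ) = N • lam (Φ 1 0 a) + c' := hc' 1 0 (Or.inl one_ne_zero)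
    have e5 : N • lam (Φ x y a) = N • lam (Φ 1 0 a) := by
      rw [e2] at e3
      exact add_right_cancel (e3.symm.trans e4)
    rw [map_sub, sub_eq_zero]
    have hN' : (N : ℚ) ≠ 0 := by exact_mod_cast hN
    rw [zsmul_eq_mul, zsmul_eq_mul] at e5
    exact mul_left_cancel₀ hN' e5
  refine ⟨Φ 1 0 a, fun x y hxy => ?_⟩
  have h := (Module.forall_dual_apply_eq_zero_iff ℚ (Φ x y a - Φ 1 0 a)).1
    (fun f => key f x y hxy)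
  show Φ x y a = 0 + Φ 1 0 a
  rw [zero_add]
  exact sub_eq_zero.1 h

/-- Back to the Eichler potentials. -/
theorem hLTr2 (p a n : ℕ) (I : ℤ → ℤ → ℕ → ℂ) (hI : IDn p a n I)
    (hz : ∀ i : ℕ, i ≤ 2 * a → EqC (cp (PhN a I) i) 0) :
    ∀ i : ℕ, i ≤ 2 * a → ∀ x y : ℤ, (x ≠ 0 ∨ y ≠ 0) →
      I x y i + (-1) ^ (a + i) * I (-x) y i = 0 := by
  intro i hi x y hxy
  obtain ⟨c, hc⟩ := hz i hi
  have h1 := hc 1 0 (Or.inl one_ne_zero)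
  have h2 := hc x y hxy
  have h10 : I 1 0 i = 0 := hI.inf i hi
  have h10' : I (-1) 0 i = 0 := by
    have := hI.hom i hi (-1) 1 0 (by norm_num) (Or.inl one_ne_zero)
    simp only [cp, mul_one, mul_zero] at this
    rw [this, h10]
  simp only [cp, PhN, Pi.zero_apply, zero_add] at h1 h2
  rw [h10, h10', smul_zero, add_zero] at h1
  rw [← h1] at h2
  rw [← h2, zsmul_eq_mul]
  push_cast
  rfl

end Pool.Agent.Helper28.LV
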