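import Pool.Agent.Helper28.WK.M_Gen
import Pool.Agent.Helper28.LV.M_ZL
import Pool.Agent.Helper28.LV.M_BrgN
import Pool.Agent.Helper28.LV.M_Brg2
import Pool.Agent.Helper35.LV.M_LLa
import Pool.Agent.Helper26.LV.M_LLb
import Pool.Agent.Helper8.LV.M_LPol
import Pool.Agent.Helper90.LV.M_UIW
import Pool.Agent.Helper9.LV.M_MS
import Pool.Agent.Helper34.LV.M_RgT
import Pool.Agent.Helper76.LV.M_F0
import Pool.Agent.Helper4.LV.M_LW1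
import Pool.Agent.Helper61.LV.M_LW2
import Pool.Agent.Helper60.LV.M_LW4
import Pool.Agent.Helper47.LV.M_EG
import Pool.Agent.Helper29.LV.M_F1
import Pool.Agent.Helper7.LV.M_MCG
import Pool.Agent.Helper69.LV.M_MC
import Pool.Agent.Helper66.LV.M_M2B
import Pool.Agent.Helper1.LV.M_AV
import Pool.Agent.Helper15.LV.M_F2
import Pool.Agent.Helper36.LV.M_M2A
import Pool.Agent.Helper21.LV.M_LPol2
import Pool.Agent.Helper54.LV.M_LMap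
import Pool.Agent.Helper62.LV.M_LDen
import Pool.Agent.Helper67.LV.M_LQC
import Pool.Agent.Helper12.LV.M_LTr
import Pool.Agent.Helper51.LV.M_RgU
import Pool.Agent.Helper11.LV.M_LAll
import Pool.Agent.Helper28.LV.DefsA

/-!
# Theorem A for the prime `p` implies nonvanishing at the levels `1`, `p` (weights `≡ 0` modulo `4`), `p²`
-/

set_option autoImplicit false

open Pool.Agent.Helper14.CV (G0 Homog EqC act)
open Pool.Agent.Helper14.WK Pool.Agent.Helper28.WK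

namespace Pool.Agent.Helper28.LV

theorem mcT : MC :=
  Pool.Agent.Helper69.LV.hMC (Pool.Agent.Helper7.LV.hMCG (Pool.Agent.Helper86.WK.hGp)
    Pool.Agent.Helper2.WK.hPl1 Pool.Agent.Helper99.WK.hCC)

theorem msT : MS :=
  Pool.Agent.Helper9.LV.hMS mcT Pool.Agent.Helper2.WK.hPl1 Pool.Agent.Helper34.LV.hRgT Pool.Agent.Helper51.LV.hRgU

theorem uiT : UIp := Pool.Agent.Helper82.WK.hUIp Pool.Agent.Helper38.CV.hFar

theorem center0 (p : ℕ) (hp : p.Prime) (hTA : TAp p) (a : ℕ) (Φ : ℤ → ℤ → ℕ → ℂ)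
    (hW : WSN p a 0 Φ) : EqC (cp Φ a) 0 :=
  Pool.Agent.Helper67.LV.hLQC Pool.Agent.Helper38.CV.hFar Pool.Agent.Helper54.LV.hLMap
    Pool.Agent.Helper62.LV.hLDen p ⟨hp⟩ a 0
    (fun Φ h => hZ0 Pool.Agent.Helper35.LV.hLLa Pool.Agent.Helper26.LV.hLLb uiT
      Pool.Agent.Helper8.LV.hLPol (Pool.Agent.Helper90.LV.hUIW uiT) msT
      Pool.Agent.Helper34.LV.hRgT Pool.Agent.Helper51.LV.hRgU Pool.Agent.Helper76.LV.hF0 Pool.Agent.Helper4.LV.hLW1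
      Pool.Agent.Helper61.LV.hLW2 Pool.Agent.Helper60.LV.hLW4 p ⟨hp⟩ hTA a Φ h) Φ hW

theorem center1 (p : ℕ) (hp : p.Prime) (hTA : TAp p) (a : ℕ) (ha : Odd a)
    (Φ : ℤ → ℤ → ℕ → ℂ) (hW : WSN p a 1 Φ) : EqC (cp Φ a) 0 :=
  Pool.Agent.Helper67.LV.hLQC Pool.Agent.Helper38.CV.hFar Pool.Agent.Helper54.LV.hLMap
    Pool.Agent.Helper62.LV.hLDen p ⟨hp⟩ a 1
    (fun Φ h => hZ1 Pool.Agent.Helper35.LV.hLLa Pool.Agent.Helper26.LV.hLLb uiT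
      Pool.Agent.Helper8.LV.hLPol (Pool.Agent.Helper90.LV.hUIW uiT) msT
      Pool.Agent.Helper34.LV.hRgT Pool.Agent.Helper51.LV.hRgU Pool.Agent.Helper47.LV.hEG Pool.Agent.Helper29.LV.hF1
      Pool.Agent.Helper4.LV.hLW1 Pool.Agent.Helper61.LV.hLW2 Pool.Agent.Helper60.LV.hLW4
      p ⟨hp⟩ hTA a ha Φ h) Φ hW

theorem center2 (p : ℕ) (hp : p.Prime) (hTA : TAp p) (a : ℕ) (Φ : ℤ → ℤ → ℕ → ℂ)
    (hW : WSymP p a 0 Φ) : EqC (cp Φ a) 0 :=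
  qc2 Pool.Agent.Helper38.CV.hFar Pool.Agent.Helper47.WK.hMap Pool.Agent.Helper66.WK.hDen p ⟨hp⟩
    a 0
    (fun Φ h => hZ2 Pool.Agent.Helper35.LV.hLLa Pool.Agent.Helper26.LV.hLLb uiT
      Pool.Agent.Helper21.LV.hLPol2 mcT Pool.Agent.Helper34.LV.hRgT Pool.Agent.Helper51.LV.hRgU Pool.Agent.Helper47.LV.hEG
      Pool.Agent.Helper66.LV.hM2B Pool.Agent.Helper1.LV.hAV Pool.Agent.Helper15.LV.hF2
      Pool.Agent.Helper36.LV.hM2A Pool.Agent.Helper28.WK.hW2 Pool.Agent.Helper97.WK.hW4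
      p ⟨hp⟩ hTA a Φ h) Φ hW

/-- The analytic statements of project WK used below. -/
theorem ana : SKA4 ∧ SKMod ∧ SKP1 ∧ SKP2 ∧ SKH3 ∧ SKA8 ∧ SKN4 ∧ SKP5 ∧ SKP6 ∧ SKP4 ∧ SKA5 ∧
    SKIN := by
  have a1 := Pool.Agent.Helper63.WK.hKA1
  have a1b := Pool.Agent.Helper92.WK.hKA1b a1
  have ke := Pool.Agent.Helper6.WK.hKE a1
  have a3 := Pool.Agent.Helper80.WK.hKA3 ke
  have kmod := Pool.Agent.Helper32.WK.hKMod
  have a4 := Pool.Agent.Helper83.WK.hKA4 a1 a1b ke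
  have p1 := Pool.Agent.Helper69.WK.hKP1
  have p2 := Pool.Agent.Helper53.WK.hKP2 a3 p1
  have h1 := Pool.Agent.Helper79.WK.hKH1 a1
  have h2 := Pool.Agent.Helper99.WK.hKH2 h1 ke a1b
  have h3 := Pool.Agent.Helper62.WK.hKH3 h2 p1
  have a8 := Pool.Agent.Helper43.WK.hKA8 a1
  have n3 := Pool.Agent.Helper7.WK.hKN3 h1 kmod Pool.Agent.Helper10.CV.hN1
  have n4 := Pool.Agent.Helper21.WK.hKN4 kmod a8 Pool.Agent.Helper22.WK.hKN2 n3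
  have p5 := Pool.Agent.Helper66.WK.hKP5 ke a1b p1
  have p6 := Pool.Agent.Helper22.WK.hKP6 ke p1
  have p4 := Pool.Agent.Helper10.WK.hKP4 p2
  have a5 := Pool.Agent.Helper86.WK.hKA5 a1 a1b ke
  have b1 := Pool.Agent.Helper82.WK.hKB1
  have b2 := Pool.Agent.Helper81.WK.hKB2 a1 a1b ke b1
  have b3 := Pool.Agent.Helper90.WK.hKB3 a1 b1
  have kin := Pool.Agent.Helper67.WK.hKIN b1 b2 b3 p1
  exact ⟨a4, kmod, p1, p2, h3, a8, n4, p5, p6, p4, a5, kin⟩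

/-- Level one. -/
theorem gen0 (p : ℕ) (hp : p.Prime) (hTA : TAp p) (A : ℕ) (hA : 1 ≤ A)
    (hne : NeZero (p ^ 0)) (hk : 0 < (2 * A + 2 : ℤ))
    (f : CuspForm (G0 (p ^ 0)) (2 * A + 2)) (h1f : fcK f 1 = 1)
    (hf : ∀ l : ℕ, l.Prime → l ≠ p → HeckeEigK f l (fcK f l)) (hε : RootOneK hk f) :
    LanK hk f (1 / 2) ≠ 0 := by
  obtain ⟨a4, kmod, p1, p2, h3, a8, -, -, -, p4, a5, kin⟩ := ana
  exact hFinN a4 kmod p1 p2 h3 p4 a5 kin Pool.Agent.Helper12.LV.hLTr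
    Pool.Agent.Helper11.LV.hLAll p hp A 0 hA
    (fun Φ hW => center0 p hp hTA A Φ hW) hne hk f h1f hf (a8 (p ^ 0) hne A hk f hε)

/-- Level `p`, weight `≡ 0` modulo `4`. -/
theorem gen1 (p : ℕ) (hp : p.Prime) (hTA : TAp p) (A : ℕ) (hA : Odd A)
    (hne : NeZero (p ^ 1)) (hk : 0 < (2 * A + 2 : ℤ))
    (f : CuspForm (G0 (p ^ 1)) (2 * A + 2)) (hf : IsNewformK p 1 f) (hε : RootOneK hk f) :
    LanK hk f (1 / 2) ≠ 0 := by
  obtain ⟨a4, kmod, p1, p2, h3, a8, -, -, -, p4, a5, kin⟩ := ana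
  have hA1 : 1 ≤ A := by
    obtain ⟨r, hr⟩ := hA
    omega
  exact hFinN a4 kmod p1 p2 h3 p4 a5 kin Pool.Agent.Helper12.LV.hLTr Pool.Agent.Helper11.LV.hLAll p hp A 1 hA1
    (fun Φ hW => center1 p hp hTA A hA Φ hW) hne hk f hf.normalised hf.hecke
    (a8 (p ^ 1) hne A hk f hε)

/-- Level `p^n`, `n ≥ 2`, all even weights `≥ 4`. -/
theorem gen2 (p : ℕ) (hp : p.Prime) (hTA : TAp p) (A n : ℕ) (hA : 1 ≤ A)
    (hn : 2 ≤ n) (hne : NeZero (p ^ n)) (hk : 0 < (2 * A + 2 : ℤ))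
    (f : CuspForm (G0 (p ^ n)) (2 * A + 2)) (hf : IsNewformK p n f) (hε : RootOneK hk f) :
    LanK hk f (1 / 2) ≠ 0 := by
  by_cases h3n : 3 ≤ n
  · exact gen p hp hTA A n hA h3n hne hk f hf hε
  obtain rfl : n = 2 := by omega
  obtain ⟨a4, kmod, p1, p2, h3, a8, n4, p5, p6, p4, a5, kin⟩ := ana
  exact hFin2 a4 kmod p1 p2 h3 a8 n4 p5 p6 p4 a5 kin Pool.Agent.Helper12.WK.hTr
    Pool.Agent.Helper32.WK.hTr2 Pool.Agent.Helper32.WK.hAll p hp A 0 hA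
    (fun Φ hW => center2 p hp hTA A Φ hW) hne hk f hf hε

end Pool.Agent.Helper28.LV
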