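import Pool.Agent.Helper28.LV.StL
import Pool.Agent.Helper14.WK.StA

/-!
# Project LV, level `p` and `a` even: statements

`f` is a newform of level `p`, weight `2a+2`, `a ≥ 2` even, root number `+1`, `L(1/2,f) = 0`. The
`p`-adic argument gives a symbol `Ψ` of level ONE with `4 Φ = u*Ψ - Ψ`. We show that then
`F = ∑_s p^((a+1)s) f(p^s z)` is a cusp form of level one (a Hecke converse theorem by gluing along
the real axis), with the same eigenvalues as `f`: contradiction to `f` new.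
`D = (v, w)`, `H(D) = H(w) - H(v)` as in StL.lean.
-/

set_option autoImplicit false

open Pool.Agent.Helper14.CV (G0 Homog EqC act StFar)
open Pool.Agent.Helper28.WK
open Pool.Agent.Helper14.WK

namespace Pool.Agent.Helper28.LV

/-- `Ψ` is a symbol of level one and weight `2a+2` with `4 Φ_t(D) = p^(a-t) Ψ_t(uD) - Ψ_t(D)`. -/
structure L1S {R : Type} [AddCommGroup R] (p a : ℕ) (Φ Ψ : ℤ → ℤ → ℕ → R) : Prop where
  hom : ∀ i : ℕ, i ≤ 2 * a → Homog (cp Ψ i)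
  inf : ∀ i : ℕ, i ≤ 2 * a → Ψ 1 0 i = 0
  eqv : ∀ α β γ δ : ℤ, α * δ - β * γ = 1 → ∀ i : ℕ, i ≤ 2 * a →
    EqC (act α β γ δ (cp Ψ i)) (pr Ψ ((Polynomial.C α * Polynomial.X + Polynomial.C β) ^ i *
      (Polynomial.C γ * Polynomial.X + Polynomial.C δ) ^ (2 * a - i)))
  rel : ∀ t : ℕ, t ≤ 2 * a → ∀ x y : ℤ, (x ≠ 0 ∨ y ≠ 0) →
    (4 * (p : ℤ) ^ t) • (Φ x y t - Φ 1 0 t) =
      ((p : ℤ) ^ a) • Ψ (p * x) y t - ((p : ℤ) ^ t) • Ψ x y t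

/-- The system `F_D` of functions of a matrix belonging to `ψ`. -/
def FSys (p a : ℕ) [Fact p.Prime] (Φ : ℤ → ℤ → ℕ → ℤ_[p])
    (F : ℤ → ℤ → ℤ → ℤ → ℚ_[p] → ℚ_[p] → ℚ_[p] → ℚ_[p] → ℚ_[p]) : Prop :=
  (∀ v1 v2 w1 w2 : ℤ, (v1 ≠ 0 ∨ v2 ≠ 0) → (w1 ≠ 0 ∨ w2 ≠ 0) → Rg a (F v1 v2 w1 w2)) ∧
  (∀ v1 v2 w1 w2 z1 z2 : ℤ, (v1 ≠ 0 ∨ v2 ≠ 0) → (w1 ≠ 0 ∨ w2 ≠ 0) → (z1 ≠ 0 ∨ z2 ≠ 0) →
    ∀ α β γ δ : ℚ_[p], F v1 v2 w1 w2 α β γ δ + F w1 w2 z1 z2 α β γ δ = F v1 v2 z1 z2 α β γ δ) ∧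
  (∀ v1 v2 w1 w2 k : ℤ, (v1 ≠ 0 ∨ v2 ≠ 0) → (w1 ≠ 0 ∨ w2 ≠ 0) → k ≠ 0 →
    ∀ α β γ δ : ℚ_[p], F v1 v2 (k * w1) (k * w2) α β γ δ = F v1 v2 w1 w2 α β γ δ) ∧
  (∀ v1 v2 w1 w2 : ℤ, (v1 ≠ 0 ∨ v2 ≠ 0) → (w1 ≠ 0 ∨ w2 ≠ 0) → ∀ x y z t : ℤ, x * t - y * z = 1 →
    ∀ α β γ δ : ℚ_[p], F (x * v1 + y * v2) (z * v1 + t * v2) (x * w1 + y * w2) (z * w1 + t * w2)
      α β γ δ = F v1 v2 w1 w2 (α * x + β * z) (α * y + β * t) (γ * x + δ * z) (γ * y + δ * t)) ∧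
  (∀ v1 v2 w1 w2 : ℤ, (v1 ≠ 0 ∨ v2 ≠ 0) → (w1 ≠ 0 ∨ w2 ≠ 0) → ∀ α β γ δ : ℚ_[p],
    4 * EGf a Φ v1 v2 w1 w2 α β γ δ =
      F (p * v1) v2 (p * w1) w2 α (p * β) (γ / p) δ - F v1 v2 w1 w2 α β γ δ)

/-- QFA. Proof. As steps (0), (2), (3) of `StF1` (docstring there; model
Pool/Agent/Helper29/LV/M_F1.lean): `Nc a c ψ ≈ 0` for all `c`, MS gives `F_D` in `Rg` with
`ψ(gD) = F_D(g)` for all integral `g` of determinant one. All identities: RGU (for integral `g` in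
`Γ₀(p)`, the last one, or in `SL₂(ℤ)`, the others), both sides being `Rg` (RGT). -/
def StQFa : Prop := MS → RgT → RgU → EG → ∀ (p : ℕ) (_ : Fact p.Prime) (a : ℕ)
  (Φ : ℤ → ℤ → ℕ → ℤ_[p]) (ψ : ℤ → ℤ → ℤ_[p]),
  (∀ α β γ δ : ℤ, α * δ - β * γ = 1 → (p : ℤ) ∣ γ →
    EqC (act α β γ δ (cp Φ a)) (pr Φ ((Polynomial.C α * Polynomial.X + Polynomial.C β) ^ a *
      (Polynomial.C γ * Polynomial.X + Polynomial.C δ) ^ a))) →
  Homog ψ → (∀ M : ℕ, 3 ≤ M → SymP p M M (redP M ψ)) →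
  EqC (act p 0 0 1 ψ - ψ) ((4 : ℤ) • cp Φ a) →
  (∀ h : ℤ, EqC (Nb a h ψ) 0) → (∀ c : ℤ, (p : ℤ) ∣ c → EqC (Nc a c (act p 0 0 1 ψ)) 0) →
  ∃ F : ℤ → ℤ → ℤ → ℤ → ℚ_[p] → ℚ_[p] → ℚ_[p] → ℚ_[p] → ℚ_[p], FSys p a Φ F

/-- QFB. Proof. For nonzero `v, w` let `Q_D(r, s) = F_D(r, s, r, s)`; by `Rg` it is
`∑_{t ≤ 2a} q_t(D) r^t s^(2a-t)` with unique `q_t(D)` in `ℚ_p`. Put `Ψ x y t = q_t((1,0),(x,y)) / (2a choose t)`
(`0` at the origin), so `q_t(v,w) = (2a choose t) (Ψ_t(w) - Ψ_t(v))` (additivity, for `v = w`: `F = 0`).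
`hom`, `inf`: clear. `eqv`: `Q_{κD}(r,s) = Q_D(rα+sγ, rβ+sδ)`; write `Ψ_D(X^t)` for
`Ψ_t(w) - Ψ_t(v)` and extend linearly: `Q_D(r,s) = Ψ_D((rX+s)^(2a))`, so
`Q_{κD}(r,s) = Ψ_D((r(αX+β) + s(γX+δ))^(2a)) = ∑ (2a choose t) r^t s^(2a-t) Ψ_D((αX+β)^t (γX+δ)^(2a-t))`;
compare the coefficients; for `D = ((1,0), w)` this is `eqv` with constant `Ψ_t(κ(1,0))`. `rel`:
`4 EGf_D(r,s,r,s) = F_{uD}(r, ps, r/p, s) - Q_D(r,s)`, `EGf_D(r,s,r,s) = ∑ (2a choose t) r^t s^(2a-t) Φ_t(D)`,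
and by bihomogeneity (RGT) `F_{uD}(r, ps, r/p, (ps)/p) = p^(-a) Q_{uD}(r, ps)`: the coefficients of
`r^t s^(2a-t)`: `4 Φ_t(D) = p^(a-t) Ψ_t(uD) - Ψ_t(D)`, and for `v = (1,0)`: `Ψ_t(u v) = Ψ_t(p,0) = 0`. -/
def StQFb : Prop := RgT → ∀ (p : ℕ) (_ : Fact p.Prime) (a : ℕ) (Φ : ℤ → ℤ → ℕ → ℤ_[p])
  (F : ℤ → ℤ → ℤ → ℤ → ℚ_[p] → ℚ_[p] → ℚ_[p] → ℚ_[p] → ℚ_[p]), FSys p a Φ F →
  ∃ Ψ : ℤ → ℤ → ℕ → ℚ_[p], L1S p a (fun x y i => (Φ x y i : ℚ_[p])) Ψ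

/-- The content of FG. -/
def FG : Prop := ∀ (p a n : ℕ) (R : Type) (_ : AddCommGroup R) (Φ : ℤ → ℤ → ℕ → R), p.Prime →
  WSN p a n Φ → ∃ S : Finset R, ∀ i : ℕ, i ≤ 2 * a → ∀ x y : ℤ, (x ≠ 0 ∨ y ≠ 0) →
    Φ x y i - Φ 1 0 i ∈ AddSubgroup.closure (S : Set R)

/-- FG. Finite generation. Proof. Two matrices of determinant one which agree modulo `p^n` differ by
a left factor in the group, so `Φ_i(g∞) - Φ_i(g0)` is an integral combination of the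
`Φ_s(g'∞) - Φ_s(g'0)`, `s ≤ 2a`; finitely many classes modulo `p^n`; let `S` be the set of all these
differences for one representative of each class. Then `StFar` for `R ⧸ closure S` (as in
Pool/Agent/Helper62/LV/M_LDen.lean). -/
def StFG : Prop := StFar → FG

/-- DC. Descent to `ℂ`. Proof. `S` from FG, `W` the `ℚ`-span of `S` in `ℂ`, of finite dimension, basis
`e_j`, and `ℚ`-linear `lam_j : ℂ → ℚ` with `w = ∑ lam_j(w) e_j` for `w` in `W` (extend the coordinate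
functionals, `LinearMap.exists_extend`). `lam_j∘Φ` satisfies `WSN` (LMAP); LDEN: integral `Ψ'_j`
with `WSN` and `Ψ'_j ≈ N_j lam_j∘Φ`. The hypothesis for `Ψ'_j` (cast to `ℤ_p`, LMAP) gives `Ψ''_j` with
values in `ℚ_p`; compose with a `ℚ`-linear `π : ℚ_p → ℚ`, `π 1 = 1`, and divide by `N_j`: `Ψ_j` with
`L1S p a (lam_j∘Φ) Ψ_j`. Put `Ψ = ∑_j Ψ_j e_j`. -/
def StDC : Prop := FG → StFar → StLMap → StLDen → ∀ (p : ℕ) (_ : Fact p.Prime) (a : ℕ),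
  (∀ Φ : ℤ → ℤ → ℕ → ℤ_[p], WSN p a 1 Φ →
    ∃ Ψ : ℤ → ℤ → ℕ → ℚ_[p], L1S p a (fun x y i => (Φ x y i : ℚ_[p])) Ψ) →
  ∀ Φ : ℤ → ℤ → ℕ → ℂ, WSN p a 1 Φ → ∃ Ψ : ℤ → ℤ → ℕ → ℂ, L1S p a Φ Ψ

/-- The content of NH. -/
def NH : Prop := ∀ (N : ℕ) (_ : NeZero N) (A : ℕ) (f : CuspForm (G0 N) (2 * A + 2)), 2 ≤ A →
  Summable (fun m : ℕ => ‖fcK f m‖ / (m : ℝ) ^ (2 * A + 1)) ∧
  ∀ x : ℝ, HasSum (fun m : ℕ => fcK f m * ((2 * A).factorial / (2 * Real.pi * m) ^ (2 * A + 1) : ℝ) *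
    Complex.exp (2 * Real.pi * Complex.I * m * x)) (HK A f x)

/-- NH. The Fourier series of `HK`. Proof. `fcK f m = O(m^(A+1))` (`CuspFormClass.qExpansion_isBigO`), so the
terms of the first series are `O(m^(-A))`. Second: `f(x+iy) = ∑ a_m e^(2πimx) e^(-2πmy)` (`SKA1`), and
`∫_0^∞ e^(-2πmy) y^(2A) dy = (2A)!/(2πm)^(2A+1)`; exchange of sum and integral
(`MeasureTheory.hasSum_integral_of_summable_integral_norm`); `fcK f 0 = 0`. Model for the integrals: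
Pool/Agent/Helper90/WK/M_KB3.lean. -/
def StNH : Prop := SKA1 → NH

/-- `∑_s p^(-as) (H(p^s x) + H(-p^s x))`, `H = HK a f`. -/
noncomputable def Gp {N : ℕ} {k : ℤ} (p a : ℕ) (f : CuspForm (G0 N) k) (x : ℝ) : ℂ :=
  ∑' s : ℕ, ((p : ℂ) ^ (a * s))⁻¹ * (HK a f ((p : ℝ) ^ s * x) + HK a f (-((p : ℝ) ^ s * x)))

/-- The content of NS. -/
def NS : Prop := ∀ (p a : ℕ) (_ : NeZero (p ^ 1)) (f : CuspForm (G0 (p ^ 1)) (2 * a + 2))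
  (I Ψ : ℤ → ℤ → ℕ → ℂ), p.Prime → Even a → 2 ≤ a → IsPotK a f I →
  (∀ i : ℕ, i ≤ 2 * a → I 1 0 i = 0) → (∀ i : ℕ, i ≤ 2 * a → Homog (cp I i)) →
  L1S p a (PhN a I) Ψ → ∀ r q : ℤ, 0 < q →
  ∑ t ∈ Finset.range (2 * a + 1), ((2 * a).choose t : ℂ) * (-(r : ℂ)) ^ (2 * a - t) * (q : ℂ) ^ t *
    Ψ r q t = 4 * Complex.I * (q : ℂ) ^ (2 * a) * Gp p a f ((r : ℝ) / (q : ℝ))

/-- NS. The series for `Ψ`. Proof. `hΨ(r,q)` the left side, `hΦ(r,q)` the same sum for `Φ = PhN a I`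
(`Φ_t(1,0) = 0`). By KB2 `hΦ(r,q) = (-1)^(a+1) i q^(2a) (H(r/q) + (-1)^a H(-r/q)) = -i q^(2a) (H(r/q) + H(-r/q))`
(for the second summand of `PhN`: `(-r)^(2a-t) (-1)^(a+t) = (-1)^a r^(2a-t)`). `rel` times
`(2a choose t) (-r)^(2a-t) q^t p^(2a-t)`, summed over `t`: `4 p^(2a) hΦ(r,q) = p^a hΨ(pr,q) - p^(2a) hΨ(r,q)`, so
`hΨ(r,q) = p^(-a) hΨ(pr,q) - 4 hΦ(r,q)`, and by induction
`hΨ(r,q) = -4 ∑_{s<R} p^(-as) hΦ(p^s r,q) + p^(-aR) hΨ(p^R r,q)`. `hΨ(r+q,q) = hΨ(r,q)` (`eqv` for `(1 1; 0 1)`, the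
constant is `0` by evaluation at `(1,0)`; `(y(X+1) - (x+y))^(2a) = (yX-x)^(2a)`), so for fixed `q` only
finitely many values, bounded, and the last term tends to `0`; `H` is bounded (KB1, periodic and
continuous), so the series converges. -/
def StNS : Prop := SKB1 → SKB2 → SKB3 → NS

/-- The content of NR. -/
def NR : Prop := ∀ (p a : ℕ) (_ : NeZero (p ^ 1)) (f : CuspForm (G0 (p ^ 1)) (2 * a + 2))
  (I Ψ : ℤ → ℤ → ℕ → ℂ), p.Prime → Even a → 2 ≤ a → IsPotK a f I →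
  (∀ i : ℕ, i ≤ 2 * a → I 1 0 i = 0) → (∀ i : ℕ, i ≤ 2 * a → Homog (cp I i)) →
  L1S p a (PhN a I) Ψ → ∃ P : Polynomial ℂ, P.natDegree ≤ 2 * a ∧
    ∀ x : ℝ, x ≠ 0 → (x : ℂ) ^ (2 * a) * Gp p a f (-1 / x) = Gp p a f x + P.eval (x : ℂ)

/-- NR. The transformation under `-1/x`. Proof. `eqv` for `S = (0 -1; 1 0)`:
`Ψ_t(-y, x) = (-1)^t Ψ_(2a-t)(x, y) + c_t`. With `hΨ(x,y) = ∑_t (2a choose t) (-x)^(2a-t) y^t Ψ_t(x,y)` (all
nonzero vectors) `hΨ(-y,x) = hΨ(x,y) + ∑_t (2a choose t) y^(2a-t) x^t c_t`, and `hΨ(-v) = hΨ(v)` (`Homog`, even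
degree). For `r ≠ 0`, `q > 0`: `hΨ(r,q) = 4 i q^(2a) Gp(r/q)` and `hΨ(-q,r) = 4 i r^(2a) Gp(-q/r)` (NS, if
`r < 0` use `-v`). Divide by `4 i q^(2a)`: the claim for rational `x ≠ 0` with
`P = (4i)⁻¹ ∑_t (2a choose t) c_t X^t`. `Gp` is continuous (uniformly convergent series of continuous
functions, KB1, `H` bounded), so for all real `x ≠ 0` (`Rat.denseRange_cast`, or closure). -/
def StNR : Prop := SKB1 → SKB3 → NS → NR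

/-- `∑_M b_M (2πiM)^(-n-1) e^(2πiMz)`. -/
noncomputable def EE (n : ℕ) (b : ℕ → ℂ) (z : ℂ) : ℂ :=
  ∑' M : ℕ, b M / (2 * Real.pi * Complex.I * M) ^ (n + 1) *
    Complex.exp (2 * Real.pi * Complex.I * M * z)

/-- `∑_M b_M e^(2πiMz)`. -/
noncomputable def FF (b : ℕ → ℂ) (z : ℂ) : ℂ :=
  ∑' M : ℕ, b M * Complex.exp (2 * Real.pi * Complex.I * M * z)

/-- The coefficients of `∑_s p^((a+1)s) f(p^s z)`. -/
noncomputable def bco {N : ℕ} {k : ℤ} (p a : ℕ) (f : CuspForm (G0 N) k) (M : ℕ) : ℂ :=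
  ∑ s ∈ Finset.range (M + 1), if p ^ s ∣ M then (p : ℂ) ^ ((a + 1) * s) * fcK f (M / p ^ s) else 0

/-- The content of NE. -/
def NE : Prop := ∀ (p a : ℕ) (_ : NeZero (p ^ 1)) (f : CuspForm (G0 (p ^ 1)) (2 * a + 2)),
  p.Prime → Even a → 2 ≤ a →
  bco p a f 0 = 0 ∧ bco p a f 1 = fcK f 1 ∧
  Summable (fun M : ℕ => ‖bco p a f M‖ / (M : ℝ) ^ (2 * a + 1)) ∧
  ∀ x : ℝ, Gp p a f x = ((2 * a).factorial : ℂ) * Complex.I *
    (EE (2 * a) (bco p a f) x + EE (2 * a) (bco p a f) (-x))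

/-- NE. Proof. With `c_m = a_m (2a)!/(2πm)^(2a+1)` (NH) and `H(x) = ∑ c_m e(mx)`, `∑ |c_m| < ∞`:
`∑_s p^(-as) H(p^s x) = ∑_s ∑_m p^(-as) c_m e(m p^s x) = ∑_M (∑_{p^s ∣ M} p^(-as) c_(M/p^s)) e(Mx)` (absolutely
convergent double series; reindex `(s, m) ↦ M = p^s m`: for `M ≥ 1` the pairs are those with `p^s ∣ M`,
`s ≤ M`; `c_0 = 0`), and `p^(-as) c_(M/p^s) = p^((a+1)s) a_(M/p^s) (2a)!/(2πM)^(2a+1)`. Finally
`(2πiM)^(2a+1) = i (2πM)^(2a+1)` (`a` even). -/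
def StNE : Prop := SKA1 → NH → NE

/-! ### Complex analysis -/

/-- The content of CA1. -/
def CA1 : Prop := ∀ (n : ℕ) (b : ℕ → ℂ), b 0 = 0 →
  Summable (fun M : ℕ => ‖b M‖ / (M : ℝ) ^ (n + 1)) →
  ContinuousOn (EE n b) {z : ℂ | 0 ≤ z.im} ∧ DifferentiableOn ℂ (EE n b) {z : ℂ | 0 < z.im} ∧
  (∃ C : ℝ, ∀ z : ℂ, 0 ≤ z.im → ‖EE n b z‖ ≤ C) ∧
  (∀ z : ℂ, 0 < z.im → iteratedDeriv (n + 1) (EE n b) z = FF b z)

/-- CA1. Proof. The terms are bounded by `‖b M‖ / (2πM)^(n+1)` for `Im z ≥ 0` (Weierstrass,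
`continuousOn_tsum`, `differentiableOn_tsum_of_summable_norm`). Derivatives: `b M = O(M^(n+1))`, so all
series `∑ b M (2πiM)^j e(Mz)` converge locally uniformly on the upper half plane; by induction on
`j ≤ n+1` the `j`-th derivative is `∑ b M (2πiM)^(j-n-1) e(Mz)` (`hasDerivAt_tsum_of_isPreconnected` on
`{z | t < Im z}`, cf. Pool/Agent/Helper63/WK/M_KA1.lean). -/
def StCA1 : Prop := CA1

/-- CA2. Gluing along the real axis. Proof. Morera: for a rectangle in the ball which meets the real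
axis split it into the part above and the part below; on each the boundary integral is `0`
(`Complex.integral_boundary_rect_eq_zero_of_continuousOn_of_differentiableOn`: continuous on the
closed rectangle, differentiable in the interior); so `f` is conservative on every ball in `U` and
`Mathlib/Analysis/Complex/HasPrimitives.lean` applies. -/
def CA2 : Prop := ∀ (U : Set ℂ) (f : ℂ → ℂ), IsOpen U → ContinuousOn f U →
  (∀ z ∈ U, z.im ≠ 0 → DifferentiableAt ℂ f z) → DifferentiableOn ℂ f U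

/-- CA3. Liouville. Proof. `f` is bounded near `0`, so there is an entire `g` equal to `f` away from
`0` (`Complex.differentiableOn_update_limUnder_of_bddAbove`), `‖g z‖ ≤ C (1+‖z‖)^n` everywhere (by continuity
at `0`); Cauchy's estimate on the circle of radius `r` about `z`
(`Complex.norm_iteratedDeriv_le_of_forall_mem_sphere_norm_le`): `‖g^(n+1)(z)‖ ≤ (n+1)! C (1+‖z‖+r)^n / r^(n+1)`,
`r → ∞`. `f` and `g` agree near every `z ≠ 0`, so have the same iterated derivatives. -/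
def CA3 : Prop := ∀ (n : ℕ) (f : ℂ → ℂ) (C : ℝ), DifferentiableOn ℂ f {0}ᶜ →
  (∀ z : ℂ, z ≠ 0 → ‖f z‖ ≤ C * (1 + ‖z‖) ^ n) → ∀ z : ℂ, z ≠ 0 → iteratedDeriv (n + 1) f z = 0

/-- CA4. Bol's identity. Proof. By induction on `m`: for `g` holomorphic on the upper half plane and
`m ≥ 1` the `m`-th derivative of `z^(m-1) g(-1/z)` is `z^(-m-1) g^(m)(-1/z)`. Step: with
`φ = z^(m-1) g(-1/z)`: `(zφ)^(m+1) = z φ^(m+1) + (m+1) φ^(m)`, `φ^(m) = z^(-m-1) g^(m)(-1/z)`, so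
`φ^(m+1) = -(m+1) z^(-m-2) g^(m)(-1/z) + z^(-m-3) g^(m+1)(-1/z)`. -/
def CA4 : Prop := ∀ (n : ℕ) (g : ℂ → ℂ), DifferentiableOn ℂ g {z : ℂ | 0 < z.im} →
  ∀ z : ℂ, 0 < z.im → iteratedDeriv (n + 1) (fun w : ℂ => w ^ n * g (-1 / w)) z =
    (z ^ (n + 2))⁻¹ * iteratedDeriv (n + 1) g (-1 / z)

/-- The content of CA5. -/
def CA5 : Prop := ∀ (n : ℕ) (b : ℕ → ℂ) (P : Polynomial ℂ), Even n → P.natDegree ≤ n → b 0 = 0 →
  Summable (fun M : ℕ => ‖b M‖ / (M : ℝ) ^ (n + 1)) →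
  (∀ x : ℝ, x ≠ 0 → (x : ℂ) ^ n * (EE n b (-1 / (x : ℂ)) + EE n b (1 / (x : ℂ))) =
    EE n b x + EE n b (-x) + P.eval (x : ℂ)) →
  ∀ z : ℂ, 0 < z.im → FF b (-1 / z) = z ^ (n + 2) * FF b z

/-- CA5. Proof. Let `R(z) = E(z) - z^n E(-1/z)` for `Im z ≥ 0`, `z ≠ 0` and
`R(z) = z^n E(1/z) - E(-z) - P(z)` for `Im z < 0`, `E = EE n b`. The second formula is continuous on
`Im z ≤ 0`, `z ≠ 0` and equals the first for real `z ≠ 0` (hypothesis), so `R` is continuous away from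
`0`; it is differentiable off the real axis, so by CA2 on `{0}ᶜ`. `‖R z‖ ≤ C (1+‖z‖)^n` (CA1, `P` of degree
`≤ n`). CA3: the `(n+1)`-st derivative of `R` is `0`; on the upper half plane it is (CA1, CA4)
`F(z) - z^(-n-2) F(-1/z)`, `F = FF b`. -/
def StCA5 : Prop := CA1 → CA2 → CA3 → CA4 → CA5

/-- MF. Construction of the cusp form. Proof. `F = FF b` on the upper half plane: holomorphic,
`F(z+1) = F(z)`, `F(-1/z) = z^(2a+2) F(z)`, so invariant under `SL₂(ℤ)` in weight `2a+2` (generators `S`, `T`;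
`Γ₀(1) = SL₂(ℤ)`, note `p^0 = 1`), and `F(x+iy) → 0` for `y → ∞` uniformly in `x` (`b 0 = 0`, polynomial growth of
`b`), so it is zero at all cusps (they are equivalent to `∞`: the cusp condition for `γ∞` is the one at
`∞` for `F|γ = F`). The coefficients: uniqueness of the `q`-expansion
(model: Pool/Agent/Helper71/CV/M_A2c.lean or the proof of KH1, Pool/Agent/Helper79/WK/M_KH1.lean; the
construction of forms: Pool/Agent/Helper22/WK/M_KN2.lean). -/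
def MF : Prop := ∀ (p a : ℕ) (b : ℕ → ℂ), b 0 = 0 →
  Summable (fun M : ℕ => ‖b M‖ / (M : ℝ) ^ (2 * a + 1)) →
  (∀ z : ℂ, 0 < z.im → FF b (-1 / z) = z ^ (2 * a + 2) * FF b z) →
  ∃ g : CuspForm (G0 (p ^ 0)) (2 * a + 2), ∀ M : ℕ, fcK g M = b M

/-- NX. The Hecke relations of the coefficients. Proof. `l ≠ p` prime: `p^s ∣ l M` iff `p^s ∣ M`, then
`l M / p^s = l (M / p^s)`, and if `l ∣ M`: `p^s ∣ M / l` iff `p^s ∣ M`, `(M/l)/p^s = (M/p^s)/l`, and `l ∣ M/p^s` iff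
`l ∣ M` (when `p^s ∣ M`); the ranges of `s` may be enlarged (`p^s ∣ M`, `M ≥ 1` implies `s ≤ M`; for `M = 0` all
coefficients are `fcK f 0 = 0`). So the relation for `bco` is the combination of the relations for
`fcK f` at `M / p^s`. -/
def NX : Prop := SKA1 → ∀ (p a N : ℕ) (_ : NeZero N) (f : CuspForm (G0 N) (2 * a + 2))
  (g : CuspForm (G0 (p ^ 0)) (2 * a + 2)), p.Prime → (∀ M : ℕ, fcK g M = bco p a f M) →
  ∀ l : ℕ, l.Prime → l ≠ p → HeckeEigK f l (fcK f l) → HeckeEigK g l (fcK f l)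

end Pool.Agent.Helper28.LV
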